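import Mathlib

/-!
# A linear algebra lemma on pumping vectors
-/

set_option autoImplicit false

namespace Q222.FS

open Finset

/-- reduction of the support -/
theorem exists_small {A : Type} {n N : ℕ} (p : Fin N → A ⊕ Fin (n + 1) → ℕ) (a : A)
    (c : Fin N → ℕ) (hc : ∀ j, ∑ i, c i * p i (.inr j) = ∑ i, c i * p i (.inr 0))
    (ha : 0 < ∑ i, c i * p i (.inl a)) :
    ∃ c' : Fin N → ℕ, (∀ j, ∑ i, c' i * p i (.inr j) = ∑ i, c' i * p i (.inr 0)) ∧
      0 < ∑ i, c' i * p i (.inl a) ∧ #{i | c' i ≠ 0} ≤ n + 1 := by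
  classical
  induction hs : #{i | c i ≠ 0} using Nat.strong_induction_on generalizing c with
  | _ s ih =>
    by_cases hle : s ≤ n + 1
    · exact ⟨c, hc, ha, by omega⟩
    -- an integer relation
    obtain ⟨t, ht0, ht1, -⟩ := Int.Matrix.exists_ne_zero_int_vec_norm_le
      (Matrix.of fun (x : Option (Fin n)) (i : {i : Fin N // c i ≠ 0}) =>
        x.elim ((p i.1 (.inl a) : ℕ) : ℤ)
          (fun j => ((p i.1 (.inr j.succ) : ℕ) : ℤ) - (p i.1 (.inr 0) : ℕ)))
      (by
        rw [Fintype.card_option, Fintype.card_fin, Fintype.card_subtype]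
        omega)
      (by simp)
    have ht2 : ∑ i : {i : Fin N // c i ≠ 0}, ((p i.1 (.inl a) : ℕ) : ℤ) * t i = 0 := by
      have := congrFun ht1 none
      simpa [Matrix.mulVec, dotProduct] using this
    have ht3 : ∀ j : Fin n, ∑ i : {i : Fin N // c i ≠ 0},
        (((p i.1 (.inr j.succ) : ℕ) : ℤ) - (p i.1 (.inr 0) : ℕ)) * t i = 0 := by
      intro j
      have := congrFun ht1 (some j)
      simpa [Matrix.mulVec, dotProduct] using this
    -- extended by zero, with a positive entry
    obtain ⟨T, hT0, ⟨i1, hi1⟩, hT2, hT3⟩ : ∃ T : Fin N → ℤ, (∀ i, c i = 0 → T i = 0) ∧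
        (∃ i, 0 < T i) ∧ ∑ i, ((p i (.inl a) : ℕ) : ℤ) * T i = 0 ∧
        ∀ j : Fin n, ∑ i, (((p i (.inr j.succ) : ℕ) : ℤ) - (p i (.inr 0) : ℕ)) * T i = 0 := by
      have key : ∀ (g : Fin N → ℤ) (t : {i : Fin N // c i ≠ 0} → ℤ),
          ∑ i, g i * (if h : c i ≠ 0 then t ⟨i, h⟩ else 0) =
            ∑ i : {i : Fin N // c i ≠ 0}, g i.1 * t i := by
        intro g t
        have h1 : ∑ i, g i * (if h : c i ≠ 0 then t ⟨i, h⟩ else 0) =
            ∑ i ∈ ({i | c i ≠ 0} : Finset (Fin N)),
              g i * (if h : c i ≠ 0 then t ⟨i, h⟩ else 0) := by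
          symm
          apply sum_subset (subset_univ _)
          intro i _ hi
          have hi : c i = 0 := by simpa using hi
          simp [hi]
        rw [h1, Finset.sum_subtype ({i | c i ≠ 0} : Finset (Fin N)) (p := fun i => c i ≠ 0)
          (by simp)]
        refine sum_congr rfl fun x _ => ?_
        rw [dif_pos x.2]
      obtain ⟨i0, hi0⟩ : ∃ i, t i ≠ 0 := by
        by_contra h
        push Not at h
        exact ht0 (funext h)
      rcases lt_or_gt_of_ne hi0 with h | h
      · refine ⟨fun i => if h : c i ≠ 0 then (fun x => - t x) ⟨i, h⟩ else 0, ?_, ⟨i0.1, ?_⟩, ?_, ?_⟩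
        · intro i hi
          simp [hi]
        · simp [i0.2, h]
        · refine (key (fun i => ((p i (.inl a) : ℕ) : ℤ)) (fun x => - t x)).trans ?_
          simp [ht2]
        · intro j
          refine (key (fun i => ((p i (.inr j.succ) : ℕ) : ℤ) - (p i (.inr 0) : ℕ))
            (fun x => - t x)).trans ?_
          simp [ht3]
      · refine ⟨fun i => if h : c i ≠ 0 then t ⟨i, h⟩ else 0, ?_, ⟨i0.1, ?_⟩, ?_, ?_⟩
        · intro i hi
          simp [hi]
        · simp [i0.2, h]
        · exact (key _ _).trans ht2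
        · intro j
          exact (key _ _).trans (ht3 j)
    -- the extremal index
    have hci1 : c i1 ≠ 0 := fun h => by rw [hT0 i1 h] at hi1; exact lt_irrefl _ hi1
    obtain ⟨i0, hi0m, hi0⟩ := exists_max_image ({i | c i ≠ 0} : Finset (Fin N))
      (fun i => (T i : ℚ) / c i) ⟨i1, by simp [hci1]⟩
    have hci0 : c i0 ≠ 0 := by simpa using hi0m
    have hc0 : (0 : ℚ) < c i0 := by positivity
    have hT0' : 0 < T i0 := by
      have h1 := hi0 i1 (by simp [hci1])
      have hc1 : (0 : ℚ) < c i1 := by positivity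
      have h2 : (0 : ℚ) < (T i1 : ℚ) / c i1 := div_pos (by exact_mod_cast hi1) hc1
      have h3 := lt_of_lt_of_le h2 h1
      have h4 : (0 : ℚ) < T i0 := by
        by_contra h5
        push Not at h5
        exact absurd h3 (not_lt.2 (div_nonpos_of_nonpos_of_nonneg h5 hc0.le))
      exact_mod_cast h4
    have hmax : ∀ i, (c i0 : ℤ) * T i ≤ T i0 * c i := by
      intro i
      by_cases hi : c i = 0
      · rw [hT0 i hi, hi]; simp
      · have h1 := hi0 i (by simp [hi])
        have hc1 : (0 : ℚ) < c i := by positivity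
        rw [div_le_div_iff₀ hc1 hc0] at h1
        have h2 : (c i0 : ℚ) * T i ≤ T i0 * c i := by linarith
        exact_mod_cast h2
    -- the new coefficients
    have hC : ∀ i, ((((T i0 * c i - c i0 * T i).toNat : ℕ)) : ℤ) = T i0 * c i - c i0 * T i := by
      intro i
      rw [Int.toNat_of_nonneg]
      linarith [hmax i]
    refine ih #{i | (T i0 * c i - c i0 * T i).toNat ≠ 0} ?_
      (fun i => (T i0 * c i - c i0 * T i).toNat) ?_ ?_ rfl
    · rw [← hs]
      apply card_lt_card
      rw [ssubset_iff_of_subset]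
      · refine ⟨i0, by simp [hci0], ?_⟩
        simp only [mem_filter, mem_univ, true_and, not_not]
        rw [mul_comm, sub_self]
        rfl
      · intro i hi
        simp only [mem_filter, mem_univ, true_and] at hi ⊢
        intro h
        apply hi
        rw [hT0 i h, h]
        simp
    · intro j
      have h1 : ∀ j, ((∑ i, (T i0 * c i - c i0 * T i).toNat * p i (.inr j) : ℕ) : ℤ) =
          T i0 * ((∑ i, c i * p i (.inr j) : ℕ) : ℤ) -
            c i0 * ∑ i, ((p i (.inr j) : ℕ) : ℤ) * T i := by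
        intro j
        push_cast
        rw [mul_sum, mul_sum, ← sum_sub_distrib]
        refine sum_congr rfl fun i _ => ?_
        have := hC i
        rw [this]
        ring
      have h2 : ∑ i, ((p i (.inr j) : ℕ) : ℤ) * T i = ∑ i, ((p i (.inr 0) : ℕ) : ℤ) * T i := by
        induction j using Fin.cases with
        | zero => rfl
        | succ j =>
          have := hT3 j
          simp only [sub_mul, sum_sub_distrib] at this
          linarith
      have h3 : ((∑ i, (T i0 * c i - c i0 * T i).toNat * p i (.inr j) : ℕ) : ℤ) =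
          ((∑ i, (T i0 * c i - c i0 * T i).toNat * p i (.inr 0) : ℕ) : ℤ) := by
        rw [h1, h1, h2, hc j]
      exact_mod_cast h3
    · have h1 : ((∑ i, (T i0 * c i - c i0 * T i).toNat * p i (.inl a) : ℕ) : ℤ) =
          T i0 * ((∑ i, c i * p i (.inl a) : ℕ) : ℤ) -
            c i0 * ∑ i, ((p i (.inl a) : ℕ) : ℤ) * T i := by
        push_cast
        rw [mul_sum, mul_sum, ← sum_sub_distrib]
        refine sum_congr rfl fun i _ => ?_
        have := hC i
        rw [this]
        ring
      have h2 : (0 : ℤ) < ((∑ i, (T i0 * c i - c i0 * T i).toNat * p i (.inl a) : ℕ) : ℤ) := by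
        rw [h1, hT2, mul_zero, sub_zero]
        exact mul_pos hT0' (by exact_mod_cast ha)
      exact_mod_cast h2

/-- If the pumping vectors have at most two nonzero letter coordinates, and balanced combinations
have equal letter coordinates, then there are at most `2 (n + 1)` letters. -/
theorem card_le {A : Type} [Fintype A] {n : ℕ} (P : Set (A ⊕ Fin (n + 1) → ℕ))
    (h1 : ∀ p ∈ P, ∃ a b, ∀ c, c ≠ a → c ≠ b → p (.inl c) = 0)
    (h2 : ∀ δ ∈ AddSubmonoid.closure P, (∀ j, δ (.inr j) = δ (.inr 0)) →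
      ∀ a b, δ (.inl a) = δ (.inl b))
    (h3 : ∃ δ ∈ AddSubmonoid.closure P, (∀ j, δ (.inr j) = δ (.inr 0)) ∧
      ∃ a, δ (.inl a) ≠ 0) : Fintype.card A ≤ 2 * (n + 1) := by
  classical
  obtain ⟨δ, hδ, hbal, a, ha⟩ := h3
  obtain ⟨l, hl, rfl⟩ := AddSubmonoid.exists_list_of_mem_closure hδ
  have hsum : ∀ x, l.sum x = ∑ i : Fin l.length, 1 * l[i] x := by
    intro x
    have : l.sum = ∑ i : Fin l.length, l[i] := by
      conv_lhs => rw [← List.ofFn_getElem (xs := l), List.sum_ofFn]
      rfl
    rw [this, Finset.sum_apply]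
    simp
  obtain ⟨c, hc1, hc2, hc3⟩ := exists_small (fun i : Fin l.length => l[i]) a (fun _ => 1)
    (by intro j; rw [← hsum, ← hsum]; exact hbal j)
    (by rw [← hsum]; exact Nat.pos_of_ne_zero ha)
  have hmem : ∑ i, c i • l[i] ∈ AddSubmonoid.closure P := by
    refine AddSubmonoid.sum_mem _ fun i _ => AddSubmonoid.nsmul_mem _
      (AddSubmonoid.subset_closure (hl _ (List.getElem_mem _))) _
  have happ : ∀ x, (∑ i, c i • l[i]) x = ∑ i : Fin l.length, c i * l[i] x := by
    intro x
    rw [Finset.sum_apply]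
    simp
  have heq := h2 _ hmem (by intro j; rw [happ, happ]; exact hc1 j)
  choose f g hfg using fun i : Fin l.length => h1 l[i] (hl _ (List.getElem_mem _))
  have hcov : (univ : Finset A) ⊆ ({i | c i ≠ 0} : Finset (Fin l.length)).image f ∪
      ({i | c i ≠ 0} : Finset (Fin l.length)).image g := by
    intro b _
    have h4 := heq a b
    rw [happ, happ] at h4
    rw [h4] at hc2
    obtain ⟨i, -, hi⟩ := Finset.exists_ne_zero_of_sum_ne_zero hc2.ne'
    have hci : c i ≠ 0 := left_ne_zero_of_mul hi
    have hpi : l[i] (.inl b) ≠ 0 := right_ne_zero_of_mul hi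
    rw [mem_union, mem_image, mem_image]
    by_cases h5 : b = f i
    · exact Or.inl ⟨i, by simp [hci], h5.symm⟩
    · by_cases h6 : b = g i
      · exact Or.inr ⟨i, by simp [hci], h6.symm⟩
      · exact (hpi (hfg i b h5 h6)).elim
  have h4 := card_le_card hcov
  have h5 := card_union_le (({i | c i ≠ 0} : Finset (Fin l.length)).image f)
    (({i | c i ≠ 0} : Finset (Fin l.length)).image g)
  have h6 := card_image_le (s := ({i | c i ≠ 0} : Finset (Fin l.length))) (f := f)
  have h7 := card_image_le (s := ({i | c i ≠ 0} : Finset (Fin l.length))) (f := g)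
  rw [card_univ] at h4
  omega

end Q222.FS
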