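import Mathlib

/-!
# Kruskal's theorem for binary trees and derivation trees of grammars
-/

set_option autoImplicit false

namespace Q222.FS

/-- Binary trees with leaf labels `α` and node labels `β`. -/
inductive BT (α β : Type) where
  | leaf (a : α) : BT α β
  | node (b : β) (l r : BT α β) : BT α β

/-- Homeomorphic embedding. -/
inductive Emb {α β : Type} : BT α β → BT α β → Prop
  | leaf (a : α) : Emb (.leaf a) (.leaf a)
  | node (b : β) {l l' r r' : BT α β} : Emb l l' → Emb r r' → Emb (.node b l r) (.node b l' r')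
  | left (b : β) {t l : BT α β} (r : BT α β) : Emb t l → Emb t (.node b l r)
  | right (b : β) {t r : BT α β} (l : BT α β) : Emb t r → Emb t (.node b l r)

variable {α β : Type}

theorem Emb.refl (t : BT α β) : Emb t t := by
  induction t with
  | leaf a => exact .leaf a
  | node b l r hl hr => exact .node b hl hr

theorem Emb.trans {s t u : BT α β} (h1 : Emb s t) (h2 : Emb t u) : Emb s u := by
  induction h2 generalizing s with
  | leaf a => exact h1
  | node b hl hr ihl ihr =>
    cases h1 with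
    | node _ h3 h4 => exact .node b (ihl h3) (ihr h4)
    | left _ _ h3 => exact .left b _ (ihl h3)
    | right _ _ h3 => exact .right b _ (ihr h3)
  | left b r _ ih => exact .left b r (ih h1)
  | right b l _ ih => exact .right b l (ih h1)

instance : IsPreorder (BT α β) Emb where
  refl := Emb.refl
  trans _ _ _ := Emb.trans

/-- size -/
def BT.sz : BT α β → ℕ
  | .leaf _ => 0
  | .node _ l r => l.sz + r.sz + 1

/-- the label of the root -/
def BT.lab : BT α β → α ⊕ β
  | .leaf a => .inl a
  | .node b _ _ => .inr b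

/-- the immediate subtrees -/
def BT.kid (s t : BT α β) : Prop := ∃ b r, t = .node b s r ∨ t = .node b r s

theorem BT.kid.emb {s t u : BT α β} (h : BT.kid s t) (h2 : Emb u s) : Emb u t := by
  obtain ⟨b, r, rfl | rfl⟩ := h
  · exact .left b r h2
  · exact .right b r h2

theorem BT.kid.sz {s t : BT α β} (h : BT.kid s t) : s.sz < t.sz := by
  obtain ⟨b, r, rfl | rfl⟩ := h <;> simp only [BT.sz] <;> omega

/-- Kruskal's theorem for binary trees. -/
theorem kruskal [Finite α] [Finite β] : WellQuasiOrdered (Emb : BT α β → BT α β → Prop) := by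
  rw [← Set.partiallyWellOrderedOn_univ_iff,
    Set.PartiallyWellOrderedOn.iff_not_exists_isMinBadSeq BT.sz]
  rintro ⟨f, ⟨-, hbad⟩, hmin⟩
  -- the set of immediate subtrees is well-quasi-ordered
  have hC : {s | ∃ n, BT.kid s (f n)}.PartiallyWellOrderedOn
      (Emb : BT α β → BT α β → Prop) := by
    rw [Set.partiallyWellOrderedOn_iff_exists_lt]
    intro g hg
    by_contra hno
    push Not at hno
    choose φ hφ using hg
    obtain ⟨k0, hk0⟩ : ∃ k0, ∀ k, φ k0 ≤ φ k := by
      obtain ⟨_, ⟨k0, rfl⟩, h⟩ := WellFounded.has_min (α := ℕ) wellFounded_lt (Set.range φ) ⟨_, 0, rfl⟩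
      exact ⟨k0, fun k => not_lt.1 (h _ ⟨k, rfl⟩)⟩
    refine hmin (φ k0) (fun n => if n < φ k0 then f n else g (k0 + (n - φ k0)))
      (fun m hm => by simp [hm]) ?_ ⟨fun n => trivial, ?_⟩
    · simp only [lt_self_iff_false, if_false, Nat.sub_self, Nat.add_zero]
      exact (hφ k0).sz
    · intro m n hmn hE
      by_cases h1 : n < φ k0
      · simp only [h1, if_true, show m < φ k0 by omega] at hE
        exact hbad m n hmn hE
      · by_cases h2 : m < φ k0
        · simp only [h1, h2, if_true, if_false] at hE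
          have h3 := (hφ (k0 + (n - φ k0))).emb hE
          have h4 := hk0 (k0 + (n - φ k0))
          exact hbad m _ (by omega) h3
        · simp only [h1, h2, if_false] at hE
          exact hno _ _ (by omega) hE
  -- constant root labels
  have hlab : WellQuasiOrdered ((· = ·) : α ⊕ β → α ⊕ β → Prop) := Finite.wellQuasiOrdered _
  have hpre : IsPreorder (α ⊕ β) (· = ·) := ⟨⟩
  obtain ⟨g, hg⟩ := hlab.exists_monotone_subseq (fun n => (f n).lab)
  cases h0 : f (g 0) with
  | leaf a =>
    have h1 := hg 0 1 (by omega)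
    simp only [h0, BT.lab] at h1
    cases h2 : f (g 1) with
    | leaf a' =>
      simp only [h2, Sum.inl.injEq] at h1
      subst h1
      refine hbad (g 0) (g 1) (g.lt_iff_lt.2 (by omega)) ?_
      rw [h0, h2]
      exact .leaf a
    | node b l r => simp [h2] at h1
  | node b l0 r0 =>
    have h1 : ∀ n, ∃ l r, f (g n) = .node b l r := by
      intro n
      have h2 := hg 0 n (by omega)
      simp only [h0, BT.lab] at h2
      cases h3 : f (g n) with
      | leaf a => simp [h3] at h2
      | node b' l r =>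
        simp only [h3, Sum.inr.injEq] at h2
        subst h2
        exact ⟨l, r, rfl⟩
    choose l r hlr using h1
    obtain ⟨h, hh⟩ := hC.exists_monotone_subseq (f := l) fun n => ⟨g n, b, r n, Or.inl (hlr n)⟩
    obtain ⟨m, n, hmn, hr⟩ := hC.exists_lt (f := fun n => r (h n))
      fun n => ⟨g (h n), b, l (h n), Or.inr (hlr _)⟩
    refine hbad (g (h m)) (g (h n)) (g.lt_iff_lt.2 (h.lt_iff_lt.2 hmn)) ?_
    rw [hlr, hlr]
    exact .node b (hh m n hmn.le) hr

/-- A grammar in binary form: rules `A → w` and `A → x B C`. -/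
structure Gr (T : Type) where
  /-- nonterminals -/
  N : Type
  /-- labels of the terminal rules -/
  I : Type
  /-- labels of the binary rules -/
  J : Type
  finI : Finite I
  finJ : Finite J
  lhs0 : I → N
  out0 : I → List T
  lhs : J → N
  out : J → List T
  c1 : J → N
  c2 : J → N

namespace Gr

variable {T : Type} (G : Gr T)

/-- the nonterminal at the root -/
def root : BT G.I G.J → G.N
  | .leaf i => G.lhs0 i
  | .node j _ _ => G.lhs j

/-- derivation trees -/
def Ok : BT G.I G.J → Prop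
  | .leaf _ => True
  | .node j l r => G.root l = G.c1 j ∧ G.root r = G.c2 j ∧ Ok l ∧ Ok r

/-- the yield -/
def yield : BT G.I G.J → List T
  | .leaf i => G.out0 i
  | .node j l r => G.out j ++ (yield l ++ yield r)

/-- the language of a nonterminal -/
def L (A : G.N) : Set (List T) := {w | ∃ t, G.Ok t ∧ G.root t = A ∧ G.yield t = w}

end Gr

/-- power of a word -/
def pw {T : Type} (u : List T) (k : ℕ) : List T := (List.replicate k u).flatten

/-- the vector of the numbers of occurrences -/
def vec {T : Type} [DecidableEq T] (w : List T) : T → ℕ := fun a => w.count a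

section

variable {T : Type} [DecidableEq T]

theorem vec_append (u v : List T) : vec (u ++ v) = vec u + vec v := by
  funext a
  simp [vec]

theorem vec_pw (u : List T) (k : ℕ) : vec (pw u k) = k • vec u := by
  induction k with
  | zero => funext a; simp [vec, pw]
  | succ k ih =>
    have : pw u (k + 1) = u ++ pw u k := by simp [pw, List.replicate_succ]
    rw [this, vec_append, ih, add_smul, one_smul, add_comm]

omit [DecidableEq T] in
theorem pw_succ (u : List T) (k : ℕ) : pw u (k + 1) = u ++ pw u k := by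
  simp [pw, List.replicate_succ]

omit [DecidableEq T] in
theorem pw_succ' (u : List T) (k : ℕ) : pw u (k + 1) = pw u k ++ u := by
  simp [pw, List.replicate_succ']

/-- pumping vectors of a language -/
def Pumps (L : Set (List T)) : Set (T → ℕ) :=
  {p | ∃ u v, p = vec u + vec v ∧ ∃ x z y, ∀ k, x ++ pw u k ++ z ++ pw v k ++ y ∈ L}

variable (G : Gr T)

omit [DecidableEq T] in
theorem iterate {A : G.N} {u v : List T} (h : ∀ w ∈ G.L A, u ++ w ++ v ∈ G.L A) {w : List T}
    (hw : w ∈ G.L A) (k : ℕ) : pw u k ++ w ++ pw v k ∈ G.L A := by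
  induction k with
  | zero => simpa [pw] using hw
  | succ k ih =>
    have h1 := h _ ih
    have e : pw u (k + 1) ++ w ++ pw v (k + 1) = u ++ (pw u k ++ w ++ pw v k) ++ v := by
      rw [pw_succ, pw_succ']
      simp
    rw [e]
    exact h1

omit [DecidableEq T] in
theorem node_mem {j : G.J} {w1 w2 : List T} (h1 : w1 ∈ G.L (G.c1 j)) (h2 : w2 ∈ G.L (G.c2 j)) :
    G.out j ++ (w1 ++ w2) ∈ G.L (G.lhs j) := by
  obtain ⟨t1, a1, b1, rfl⟩ := h1
  obtain ⟨t2, a2, b2, rfl⟩ := h2
  exact ⟨.node j t1 t2, ⟨b1, b2, a1, a2⟩, rfl, rfl⟩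

theorem decomp {t t' : BT G.I G.J} (h : Emb t t') (ht : G.Ok t) (ht' : G.Ok t') :
    ∃ (u v : List T) (P : Set (T → ℕ)), (∀ w ∈ G.L (G.root t), u ++ w ++ v ∈ G.L (G.root t')) ∧
      P ⊆ Pumps (G.L (G.root t)) ∧
      (∀ δ ∈ AddSubmonoid.closure P, ∃ w ∈ G.L (G.root t), vec w = vec (G.yield t) + δ) ∧
      ∃ δ ∈ AddSubmonoid.closure P, vec (G.yield t') = vec u + vec v + vec (G.yield t) + δ := by
  induction h with
  | leaf a =>
    refine ⟨[], [], ∅, by simp, by simp, ?_, 0, AddSubmonoid.zero_mem _, ?_⟩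
    · intro δ hδ
      rw [AddSubmonoid.closure_empty, AddSubmonoid.mem_bot] at hδ
      subst hδ
      exact ⟨G.yield (.leaf a), ⟨.leaf a, trivial, rfl, rfl⟩, by simp⟩
    · funext x; simp [vec]
  | @node b l l' r r' _ _ ih1 ih2 =>
    obtain ⟨hl, hr, hl2, hr2⟩ := ht
    obtain ⟨hl', hr', hl2', hr2'⟩ := ht'
    obtain ⟨u1, v1, P1, a1, b1, c1, δ1, d1, e1⟩ := ih1 hl2 hl2'
    obtain ⟨u2, v2, P2, a2, b2, c2, δ2, d2, e2⟩ := ih2 hr2 hr2'
    rw [hl', hl] at a1
    rw [hr', hr] at a2
    rw [hl] at b1 c1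
    rw [hr] at b2 c2
    have y1 : G.yield l ∈ G.L (G.c1 b) := ⟨l, hl2, hl, rfl⟩
    have y2 : G.yield r ∈ G.L (G.c2 b) := ⟨r, hr2, hr, rfl⟩
    refine ⟨[], [], P1 ∪ P2 ∪ {vec u1 + vec v1, vec u2 + vec v2}, ?_, ?_, ?_, ?_⟩
    · intro w hw
      rw [List.nil_append, List.append_nil]
      exact hw
    · rintro p ((hp | hp) | rfl | rfl)
      · obtain ⟨u, v, rfl, x, z, y, h⟩ := b1 hp
        refine ⟨u, v, rfl, G.out b ++ x, z, y ++ G.yield r, fun k => ?_⟩
        have := node_mem G (h k) y2
        have e : G.out b ++ x ++ pw u k ++ z ++ pw v k ++ (y ++ G.yield r) =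
            G.out b ++ ((x ++ pw u k ++ z ++ pw v k ++ y) ++ G.yield r) := by simp
        rw [e]
        exact this
      · obtain ⟨u, v, rfl, x, z, y, h⟩ := b2 hp
        refine ⟨u, v, rfl, G.out b ++ (G.yield l ++ x), z, y, fun k => ?_⟩
        have := node_mem G y1 (h k)
        have e : G.out b ++ (G.yield l ++ x) ++ pw u k ++ z ++ pw v k ++ y =
            G.out b ++ (G.yield l ++ (x ++ pw u k ++ z ++ pw v k ++ y)) := by simp
        rw [e]
        exact this
      · refine ⟨u1, v1, rfl, G.out b, G.yield l, G.yield r, fun k => ?_⟩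
        have := node_mem G (iterate G a1 y1 k) y2
        have e : G.out b ++ pw u1 k ++ G.yield l ++ pw v1 k ++ G.yield r =
            G.out b ++ ((pw u1 k ++ G.yield l ++ pw v1 k) ++ G.yield r) := by simp
        rw [e]
        exact this
      · refine ⟨u2, v2, rfl, G.out b ++ G.yield l, G.yield r, [], fun k => ?_⟩
        have := node_mem G y1 (iterate G a2 y2 k)
        have e : G.out b ++ G.yield l ++ pw u2 k ++ G.yield r ++ pw v2 k ++ [] =
            G.out b ++ (G.yield l ++ (pw u2 k ++ G.yield r ++ pw v2 k)) := by simp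
        rw [e]
        exact this
    · intro δ hδ
      rw [AddSubmonoid.closure_union, AddSubmonoid.closure_union, AddSubmonoid.mem_sup] at hδ
      obtain ⟨δa, ha, δb, hb, rfl⟩ := hδ
      obtain ⟨δ1, g1, δ2, g2, rfl⟩ := AddSubmonoid.mem_sup.1 ha
      obtain ⟨k1, k2, rfl⟩ := (AddSubmonoid.mem_closure_pair _ _ _).1 hb
      obtain ⟨w1, h1, h2⟩ := c1 δ1 g1
      obtain ⟨w2, h3, h4⟩ := c2 δ2 g2
      refine ⟨_, node_mem G (iterate G a1 h1 k1) (iterate G a2 h3 k2), ?_⟩
      rw [Gr.yield]
      simp only [vec_append, vec_pw, h2, h4, nsmul_eq_mul]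
      ring
    · refine ⟨δ1 + δ2 + ((vec u1 + vec v1) + (vec u2 + vec v2)), ?_, ?_⟩
      · refine AddSubmonoid.add_mem _ (AddSubmonoid.add_mem _ ?_ ?_)
          (AddSubmonoid.add_mem _ ?_ ?_)
        · exact AddSubmonoid.closure_mono (fun x hx => Or.inl (Or.inl hx)) d1
        · exact AddSubmonoid.closure_mono (fun x hx => Or.inl (Or.inr hx)) d2
        · exact AddSubmonoid.subset_closure (Or.inr (Or.inl rfl))
        · exact AddSubmonoid.subset_closure (Or.inr (Or.inr rfl))
      · have e0 : vec ([] : List T) = 0 := rfl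
        rw [Gr.yield, Gr.yield]
        simp only [vec_append, e1, e2, e0]
        ring
  | @left b t l r h ih =>
    obtain ⟨hl, hr, hl2, hr2⟩ := ht'
    obtain ⟨u, v, P, a1, b1, c1, δ1, d1, e1⟩ := ih ht hl2
    rw [hl] at a1
    have y2 : G.yield r ∈ G.L (G.c2 b) := ⟨r, hr2, hr, rfl⟩
    refine ⟨G.out b ++ u, v ++ G.yield r, P, ?_, b1, c1, δ1, d1, ?_⟩
    · intro w hw
      have := node_mem G (a1 w hw) y2
      have e : G.out b ++ u ++ w ++ (v ++ G.yield r) =
          G.out b ++ ((u ++ w ++ v) ++ G.yield r) := by simp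
      rw [e]
      exact this
    · rw [Gr.yield]
      simp only [vec_append, e1]
      ring
  | @right b t r l h ih =>
    obtain ⟨hl, hr, hl2, hr2⟩ := ht'
    obtain ⟨u, v, P, a1, b1, c1, δ1, d1, e1⟩ := ih ht hr2
    rw [hr] at a1
    have y1 : G.yield l ∈ G.L (G.c1 b) := ⟨l, hl2, hl, rfl⟩
    refine ⟨G.out b ++ (G.yield l ++ u), v, P, ?_, b1, c1, δ1, d1, ?_⟩
    · intro w hw
      have := node_mem G y1 (a1 w hw)
      have e : G.out b ++ (G.yield l ++ u) ++ w ++ v =
          G.out b ++ (G.yield l ++ (u ++ w ++ v)) := by simp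
      rw [e]
      exact this
    · rw [Gr.yield]
      simp only [vec_append, e1]
      ring

/-- In an infinite sequence of words of a nonterminal, the difference of the vectors of two of them
is a sum of pumping vectors that can be inserted freely. -/
theorem exists_pumps {A : G.N} (w : ℕ → List T) (hw : ∀ n, w n ∈ G.L A) :
    ∃ m n, m < n ∧ ∃ P : Set (T → ℕ), P ⊆ Pumps (G.L A) ∧
      (∀ δ ∈ AddSubmonoid.closure P, ∃ x ∈ G.L A, vec x = vec (w m) + δ) ∧
      ∃ δ ∈ AddSubmonoid.closure P, vec (w n) = vec (w m) + δ := by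
  choose t h1 h2 h3 using hw
  have hI := G.finI
  have hJ := G.finJ
  obtain ⟨m, n, hmn, he⟩ := kruskal (α := G.I) (β := G.J) t
  obtain ⟨u, v, P, a, b, c, δ, d, e⟩ := decomp G he (h1 m) (h1 n)
  rw [h2, h2] at a
  rw [h2] at b c
  rw [h3] at c e
  rw [h3] at e
  refine ⟨m, n, hmn, P ∪ {vec u + vec v}, ?_, ?_, ?_⟩
  · rintro p (hp | rfl)
    · exact b hp
    · refine ⟨u, v, rfl, [], w m, [], fun k => ?_⟩
      have h4 : w m ∈ G.L A := ⟨t m, h1 m, h2 m, h3 m⟩
      simpa using iterate G a h4 k
  · intro δ' hδ'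
    rw [AddSubmonoid.closure_union, AddSubmonoid.mem_sup] at hδ'
    obtain ⟨δ1, g1, δ2, g2, rfl⟩ := hδ'
    obtain ⟨k, rfl⟩ := AddSubmonoid.mem_closure_singleton.1 g2
    obtain ⟨x, h4, h5⟩ := c δ1 g1
    refine ⟨_, iterate G a h4 k, ?_⟩
    simp only [vec_append, vec_pw, h5, nsmul_eq_mul]
    ring
  · refine ⟨δ + (vec u + vec v), AddSubmonoid.add_mem _
      (AddSubmonoid.closure_mono (fun x hx => Or.inl hx) d)
      (AddSubmonoid.subset_closure (Or.inr rfl)), ?_⟩
    rw [e]
    ring

end

end Q222.FS
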