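import Mathlib
import Pool.Agent.Q222.FS.Tree

/-!
# Pushdown automata: computations, self-regulating automata, conversion to grammars
-/

set_option autoImplicit false

namespace Q222.FS

/-- A rule `Z q x → γ p` of a pushdown automaton. Pushdown words are written with the top first:
`push` replaces the top symbol `top`. -/
structure Rule (Λ Q Γ : Type) where
  /-- the top symbol -/
  top : Γ
  /-- the state -/
  src : Q
  /-- the input read -/
  inp : List Λ
  /-- the pushed word, top first -/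
  push : List Γ
  /-- the new state -/
  tgt : Q

section

variable {Λ Q Γ : Type}

/-- The sequence of rules `μ` leads from the pushdown `α` and state `q` to the pushdown `α'` and
state `q'`. -/
def Comp : List (Rule Λ Q Γ) → List Γ → Q → List Γ → Q → Prop
  | [], α, q, α', q' => α = α' ∧ q = q'
  | r :: μ, α, q, α', q' => ∃ β, α = r.top :: β ∧ q = r.src ∧ Comp μ (r.push ++ β) r.tgt α' q'

/-- The input read by a sequence of rules. -/
def input (μ : List (Rule Λ Q Γ)) : List Λ := μ.flatMap Rule.inp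

theorem comp_append {μ ν : List (Rule Λ Q Γ)} {α α' : List Γ} {q q' : Q} :
    Comp (μ ++ ν) α q α' q' ↔ ∃ β p, Comp μ α q β p ∧ Comp ν β p α' q' := by
  induction μ generalizing α q with
  | nil =>
    constructor
    · intro h
      exact ⟨α, q, ⟨rfl, rfl⟩, h⟩
    · rintro ⟨β, p, ⟨rfl, rfl⟩, h⟩
      exact h
  | cons r μ ih =>
    constructor
    · rintro ⟨β, rfl, rfl, h⟩
      obtain ⟨β', p, h1, h2⟩ := ih.1 h
      exact ⟨β', p, ⟨β, rfl, rfl, h1⟩, h2⟩
    · rintro ⟨β', p, ⟨β, rfl, rfl, h1⟩, h2⟩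
      exact ⟨β, rfl, rfl, ih.2 ⟨β', p, h1, h2⟩⟩

theorem comp_frame {μ : List (Rule Λ Q Γ)} {α α' : List Γ} {q q' : Q} (h : Comp μ α q α' q')
    (γ : List Γ) : Comp μ (α ++ γ) q (α' ++ γ) q' := by
  induction μ generalizing α q with
  | nil =>
    obtain ⟨rfl, rfl⟩ := h
    exact ⟨rfl, rfl⟩
  | cons r μ ih =>
    obtain ⟨β, rfl, rfl, h⟩ := h
    refine ⟨β ++ γ, rfl, rfl, ?_⟩
    rw [← List.append_assoc]
    exact ih h

theorem comp_split {μ : List (Rule Λ Q Γ)} {α γ : List Γ} {q q' : Q}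
    (h : Comp μ (α ++ γ) q [] q') : ∃ μ1 μ2 p, μ = μ1 ++ μ2 ∧ Comp μ1 α q [] p ∧
      Comp μ2 γ p [] q' := by
  induction μ generalizing α q with
  | nil =>
    obtain ⟨h1, rfl⟩ := h
    obtain ⟨rfl, rfl⟩ := List.append_eq_nil_iff.1 h1
    exact ⟨[], [], q, rfl, ⟨rfl, rfl⟩, rfl, rfl⟩
  | cons r μ ih =>
    cases α with
    | nil => exact ⟨[], r :: μ, q, rfl, ⟨rfl, rfl⟩, h⟩
    | cons Z α =>
      obtain ⟨β, h1, rfl, h⟩ := h
      have h1' : Z = r.top ∧ α ++ γ = β := List.cons.inj h1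
      obtain ⟨rfl, rfl⟩ := h1'
      rw [← List.append_assoc] at h
      obtain ⟨μ1, μ2, p, rfl, h2, h3⟩ := ih h
      exact ⟨r :: μ1, μ2, p, rfl, ⟨α, rfl, rfl, h2⟩, h3⟩

/-! ### Self-regulating pushdown automata -/

/-- A self-regulating pushdown automaton over the alphabet `Λ`. -/
structure SPDA (Λ : Type) where
  /-- the states -/
  Q : Type
  /-- the pushdown alphabet -/
  Γ : Type
  finQ : Finite Q
  finΓ : Finite Γ
  /-- the rules; they serve as their own labels -/
  rules : Set (Rule Λ Q Γ)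
  finR : rules.Finite
  /-- the initial state -/
  q0 : Q
  /-- the turn state -/
  qt : Q
  /-- the initial pushdown symbol -/
  Z0 : Γ
  /-- the final states -/
  F : Set Q
  /-- the relation on the rules -/
  R : Rule Λ Q Γ → Rule Λ Q Γ → Prop

/-- The word `w` is accepted by an `n`-turn first-move computation of `M`: the sequence of rules of
the computation is the concatenation of `n + 1` blocks of the same length `k ≥ 1`; the last rule of
the first block is the earliest one that enters the turn state; and the first rules of consecutive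
blocks are related by `M.R`. -/
def SPDA.Accepts {Λ : Type} (M : SPDA Λ) (n : ℕ) (w : List Λ) : Prop :=
  ∃ (k : ℕ) (bs : List (List (Rule Λ M.Q M.Γ))), 1 ≤ k ∧ bs.length = n + 1 ∧
    (∀ b ∈ bs, b.length = k) ∧
    (∀ r ∈ bs.flatten, r ∈ M.rules) ∧
    (∃ f ∈ M.F, Comp bs.flatten [M.Z0] M.q0 [] f) ∧
    input bs.flatten = w ∧
    (∃ ρ r bs', bs = (ρ ++ [r]) :: bs' ∧ r.tgt = M.qt ∧ ∀ r' ∈ ρ, r'.tgt ≠ M.qt) ∧
    bs.IsChain fun b b' => ∃ r ρ r' ρ', b = r :: ρ ∧ b' = r' :: ρ' ∧ M.R r r'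

/-- The family of the languages over `Λ` accepted by `n`-turn first-move self-regulating pushdown
automata. -/
def FSPDA (n : ℕ) (Λ : Type) : Set (Set (List Λ)) :=
  {L | ∃ M : SPDA Λ, {w | M.Accepts n w} = L}

/-! ### Annotated pushdown automata -/

/-- A pushdown automaton whose rules are annotated by block numbers. -/
structure LP (Λ : Type) (n : ℕ) where
  Q : Type
  Γ : Type
  ι : Type
  finQ : Finite Q
  finΓ : Finite Γ
  finι : Finite ι
  rule : ι → Rule Λ Q Γ
  ann : ι → Fin (n + 1)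
  q0 : Q
  Z0 : Γ
  F : Set Q

/-- the accepting computations -/
def LP.Acc {n : ℕ} (P : LP Λ n) (μ : List P.ι) : Prop :=
  ∃ f ∈ P.F, Comp (μ.map P.rule) [P.Z0] P.q0 [] f

/-- the sequence `0^k 1^k ... n^k` -/
def pattern (n k : ℕ) : List (Fin (n + 1)) :=
  (List.finRange (n + 1)).flatMap fun j => List.replicate k j

/-- the language of the words accepted with blocks of equal lengths -/
def LP.Lang {n : ℕ} (P : LP Λ n) : Set (List Λ) :=
  {w | ∃ (μ : List P.ι) (k : ℕ), P.Acc μ ∧ μ.map P.ann = pattern n k ∧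
    input (μ.map P.rule) = w}

end

/-! ### Grammars -/

section

variable {Λ T Q Γ ι : Type} [Finite Q] [Finite ι] (rule : ι → Rule Λ Q Γ) (out : ι → List T)
  (Z0 : Γ)

/-- the relevant pushdown words -/
def suf : Set (List Γ) := (⋃ i, {γ | γ <:+ (rule i).push}) ∪ {γ | γ <:+ [Z0]}

omit [Finite Q] in
theorem suf_finite : (suf rule Z0).Finite := by
  have h : ∀ l : List Γ, {γ | γ <:+ l}.Finite := by
    intro l
    have : {γ | γ <:+ l} = {γ | γ ∈ l.tails} := by
      ext γ; simp
    rw [this]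
    exact List.finite_toSet _
  exact (Set.finite_iUnion fun i => h _).union (h _)

/-- the grammar of the popping computations -/
def gram : Gr T where
  N := List Γ × Q × Q
  I := Q
  J := ι × suf rule Z0 × Q × Q
  finI := inferInstance
  finJ := by
    have := (suf_finite rule Z0).to_subtype
    infer_instance
  lhs0 q := ([], q, q)
  out0 _ := []
  lhs x := ((rule x.1).top :: x.2.1.1, (rule x.1).src, x.2.2.2)
  out x := out x.1
  c1 x := ((rule x.1).push, (rule x.1).tgt, x.2.2.1)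
  c2 x := (x.2.1.1, x.2.2.1, x.2.2.2)

theorem gram_sound (t : BT (gram rule out Z0).I (gram rule out Z0).J)
    (h : (gram rule out Z0).Ok t) :
    ∃ μ : List ι, Comp (μ.map rule) ((gram rule out Z0).root t).1 ((gram rule out Z0).root t).2.1
      [] ((gram rule out Z0).root t).2.2 ∧ μ.flatMap out = (gram rule out Z0).yield t := by
  induction t with
  | leaf q => exact ⟨[], ⟨rfl, rfl⟩, rfl⟩
  | node x l r ihl ihr =>
    obtain ⟨hl, hr, hl2, hr2⟩ := h
    obtain ⟨μ1, a1, b1⟩ := ihl hl2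
    obtain ⟨μ2, a2, b2⟩ := ihr hr2
    rw [hl] at a1
    rw [hr] at a2
    refine ⟨x.1 :: (μ1 ++ μ2), ⟨x.2.1.1, rfl, rfl, ?_⟩, ?_⟩
    · rw [List.map_append, comp_append]
      exact ⟨x.2.1.1, x.2.2.1, comp_frame a1 _, a2⟩
    · rw [List.flatMap_cons, List.flatMap_append, b1, b2]
      rfl

theorem gram_complete (μ : List ι) (α : List Γ) (hα : α ∈ suf rule Z0) (q q' : Q)
    (h : Comp (μ.map rule) α q [] q') :
    μ.flatMap out ∈ (gram rule out Z0).L (α, q, q') := by
  induction hn : μ.length using Nat.strong_induction_on generalizing μ α q q' with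
  | _ n ih =>
    cases μ with
    | nil =>
      obtain ⟨rfl, rfl⟩ := h
      exact ⟨.leaf q, trivial, rfl, rfl⟩
    | cons i μ =>
      obtain ⟨β, rfl, rfl, h⟩ := h
      obtain ⟨ν1, ν2, p, h1, h2, h3⟩ := comp_split h
      obtain ⟨μ1, μ2, rfl, rfl, rfl⟩ := List.map_eq_append_iff.1 h1
      have hβ : β ∈ suf rule Z0 := by
        rcases hα with hα | hα
        · obtain ⟨j, hj⟩ := Set.mem_iUnion.1 hα
          exact Or.inl (Set.mem_iUnion.2 ⟨j, (List.suffix_cons _ _).trans hj⟩)
        · exact Or.inr ((List.suffix_cons _ _).trans hα)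
      simp only [List.length_cons, List.length_append] at hn
      obtain ⟨t1, a1, b1, c1⟩ := ih μ1.length (by omega) μ1 (rule i).push
        (Or.inl (Set.mem_iUnion.2 ⟨i, List.suffix_rfl⟩)) _ _ h2 rfl
      obtain ⟨t2, a2, b2, c2⟩ := ih μ2.length (by omega) μ2 β hβ _ _ h3 rfl
      refine ⟨.node (i, ⟨β, hβ⟩, p, q') t1 t2, ⟨b1, b2, a1, a2⟩, rfl, ?_⟩
      rw [List.flatMap_cons, List.flatMap_append, ← c1, ← c2]
      rfl

theorem gram_lang (q q' : Q) (w : List T) : w ∈ (gram rule out Z0).L ([Z0], q, q') ↔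
    ∃ μ : List ι, Comp (μ.map rule) [Z0] q [] q' ∧ μ.flatMap out = w := by
  constructor
  · rintro ⟨t, h1, h2, rfl⟩
    obtain ⟨μ, h3, h4⟩ := gram_sound rule out Z0 t h1
    rw [h2] at h3
    exact ⟨μ, h3, h4⟩
  · rintro ⟨μ, h, rfl⟩
    exact gram_complete rule out Z0 μ _ (Or.inr List.suffix_rfl) _ _ h

end

end Q222.FS
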