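import Mathlib
import Pool.Agent.Q222.FS.PDA
import Pool.Agent.Q222.FS.LA

/-!
# The lower bound
-/

set_option autoImplicit false

namespace Q222.FS

theorem pattern_sorted (n k : ℕ) : (pattern n k).Pairwise (· ≤ ·) := by
  unfold pattern
  rw [List.pairwise_flatMap]
  refine ⟨fun j _ => List.pairwise_replicate.2 (Or.inr le_rfl), ?_⟩
  refine (List.pairwise_lt_finRange (n + 1)).imp ?_
  intro a b hab x hx y hy
  rw [List.eq_of_mem_replicate hx, List.eq_of_mem_replicate hy]
  exact hab.le

theorem count_flatMap_replicate {α : Type} [DecidableEq α] (l : List α) (k : ℕ) (j : α) :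
    (l.flatMap fun i => List.replicate k i).count j = k * l.count j := by
  induction l with
  | nil => simp
  | cons a l ih =>
    rw [List.flatMap_cons, List.count_append, ih, List.count_replicate, List.count_cons]
    by_cases h : a = j
    · simp [h, mul_add, add_comm]
    · simp [h]

theorem pattern_count (n k : ℕ) (j : Fin (n + 1)) : (pattern n k).count j = k := by
  unfold pattern
  rw [count_flatMap_replicate, List.count_finRange, mul_one]

theorem eq_pattern {n k : ℕ} {l : List (Fin (n + 1))} (h1 : l.Pairwise (· ≤ ·))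
    (h2 : ∀ j, l.count j = k) : l = pattern n k := by
  refine List.Perm.eq_of_pairwise (le := (· ≤ ·)) (fun a b _ _ h3 h4 => le_antisymm h3 h4) h1
    (pattern_sorted n k) ?_
  rw [List.perm_iff_count]
  intro j
  rw [h2, pattern_count]

theorem vec_cons {T : Type} [DecidableEq T] (x : T) (w : List T) (a : T) :
    vec (x :: w) a = vec w a + if x = a then 1 else 0 := by
  unfold vec
  rw [List.count_cons]
  simp

theorem vec_eq_zero {T : Type} [DecidableEq T] {w : List T} {a : T} (h : a ∉ w) :
    vec w a = 0 := List.count_eq_zero.2 h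

theorem input_cons {Λ Q Γ : Type} (r : Rule Λ Q Γ) (μ : List (Rule Λ Q Γ)) :
    input (r :: μ) = r.inp ++ input μ := rfl

section

variable {A : Type} (rk : A → ℕ)

/-- sorted words -/
def Srt (w : List A) : Prop := w.Pairwise fun a b => rk a ≤ rk b

theorem srt_toList (o : Option A) : Srt rk o.toList := by
  cases o <;> simp [Srt]

theorem srt_append_last {l w : List A} (h1 : Srt rk l) (h2 : Srt rk (l.getLast?.toList ++ w)) :
    Srt rk (l ++ w) := by
  cases hl : l.getLast? with
  | none =>
    rw [List.getLast?_eq_none_iff] at hl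
    subst hl
    simpa using h2
  | some a =>
    obtain ⟨l', rfl⟩ := List.getLast?_eq_some_iff.1 hl
    rw [hl] at h2
    have h3 : Srt rk (a :: w) := h2
    unfold Srt at *
    rw [List.pairwise_append] at h1 ⊢
    rw [List.pairwise_cons] at h3
    rw [List.pairwise_append]
    refine ⟨⟨h1.1, h1.2.1, h1.2.2⟩, h3.2, ?_⟩
    intro b hb c hc
    have h4 := h3.1 c hc
    rcases List.mem_append.1 hb with hb | hb
    · exact (h1.2.2 b hb a (by simp)).trans h4
    · rw [List.mem_singleton.1 hb]
      exact h4

theorem srt_last {l w : List A} (h : Srt rk (l ++ w)) : Srt rk (l.getLast?.toList ++ w) := by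
  cases hl : l.getLast? with
  | none =>
    rw [List.getLast?_eq_none_iff] at hl
    subst hl
    simpa using h
  | some a =>
    obtain ⟨l', rfl⟩ := List.getLast?_eq_some_iff.1 hl
    unfold Srt at *
    rw [List.append_assoc, List.pairwise_append] at h
    exact h.2.1

theorem last_append (l w : List A) :
    (l.getLast?.toList ++ w).getLast? = (l ++ w).getLast? := by
  cases hl : l.getLast? with
  | none =>
    rw [List.getLast?_eq_none_iff] at hl
    subst hl
    rfl
  | some a =>
    obtain ⟨l', rfl⟩ := List.getLast?_eq_some_iff.1 hl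
    rw [List.append_assoc, List.getLast?_append (l := l')]
    simp only [Option.toList_some, List.cons_append, List.nil_append]
    rw [List.getLast?_cons]
    rfl

variable {rk}

variable {n : ℕ} (P : LP A n)

/-- control states: the last block number and the last letter -/
abbrev CS (A : Type) (n : ℕ) := Fin (n + 1) × Option A

variable (rk) in
/-- allowed moves of the control -/
def tr (s : CS A n) (i : P.ι) (s' : CS A n) : Prop :=
  s.1 ≤ P.ann i ∧ s'.1 = P.ann i ∧ Srt rk (s.2.toList ++ (P.rule i).inp) ∧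
    s'.2 = (s.2.toList ++ (P.rule i).inp).getLast?

variable (rk) in
/-- labels of the controlled automaton -/
abbrev CL := {x : CS A n × P.ι × CS A n // tr rk P x.1 x.2.1 x.2.2}

/-- rules of the controlled automaton -/
def cr (x : CL rk P) : Rule A (P.Q × CS A n) P.Γ where
  top := (P.rule x.1.2.1).top
  src := ((P.rule x.1.2.1).src, x.1.1)
  inp := (P.rule x.1.2.1).inp
  push := (P.rule x.1.2.1).push
  tgt := ((P.rule x.1.2.1).tgt, x.1.2.2)

/-- output of the controlled automaton -/
def co (x : CL rk P) : List (A ⊕ Fin (n + 1)) :=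
  Sum.inr (P.ann x.1.2.1) :: (P.rule x.1.2.1).inp.map Sum.inl

variable {P}

theorem ctl_proj {μ : List (CL rk P)} {α α' : List P.Γ} {q q' : P.Q} {s s' : CS A n}
    (h : Comp (μ.map (cr P)) α (q, s) α' (q', s')) :
    Comp ((μ.map fun x => x.1.2.1).map P.rule) α q α' q' ∧
      (∀ j ∈ (μ.map fun x => x.1.2.1).map P.ann, s.1 ≤ j) ∧
      ((μ.map fun x => x.1.2.1).map P.ann).Pairwise (· ≤ ·) ∧
      (Srt rk s.2.toList → Srt rk (s.2.toList ++ input ((μ.map fun x => x.1.2.1).map P.rule))) := by
  induction μ generalizing α q s with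
  | nil =>
    obtain ⟨rfl, h⟩ := h
    obtain ⟨rfl, rfl⟩ := Prod.mk.inj h
    refine ⟨⟨rfl, rfl⟩, by simp, by simp, fun h => by simpa [input] using h⟩
  | cons x μ ih =>
    obtain ⟨β, rfl, hq, h⟩ := h
    obtain ⟨⟨s1, i, s2⟩, hx⟩ := x
    obtain ⟨rfl, rfl⟩ := Prod.mk.inj hq
    obtain ⟨a1, a2, a3, a4⟩ := ih h
    obtain ⟨b1, b2, b3, b4⟩ := hx
    simp only at b1 b2 b3 b4 a2 a4 ⊢
    refine ⟨⟨β, rfl, rfl, a1⟩, ?_, ?_, ?_⟩
    · intro j hj
      rcases List.mem_cons.1 hj with rfl | hj
      · exact b1
      · have := a2 j hj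
        rw [b2] at this
        exact b1.trans this
    · rw [List.map_cons, List.map_cons, List.pairwise_cons]
      refine ⟨fun j hj => ?_, a3⟩
      have := a2 j hj
      rw [b2] at this
      exact this
    · intro _
      rw [List.map_cons, List.map_cons, input_cons, ← List.append_assoc]
      apply srt_append_last _ b3
      rw [← b4]
      exact a4 (srt_toList rk _)

theorem ctl_lift {μ : List P.ι} {α α' : List P.Γ} {q q' : P.Q} {s : CS A n}
    (h : Comp (μ.map P.rule) α q α' q') (h1 : ∀ j ∈ μ.map P.ann, s.1 ≤ j)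
    (h2 : (μ.map P.ann).Pairwise (· ≤ ·)) (h3 : Srt rk (s.2.toList ++ input (μ.map P.rule))) :
    ∃ (ν : List (CL rk P)) (s' : CS A n), (ν.map fun x => x.1.2.1) = μ ∧
      Comp (ν.map (cr P)) α (q, s) α' (q', s') := by
  induction μ generalizing α q s with
  | nil =>
    obtain ⟨rfl, rfl⟩ := h
    exact ⟨[], s, rfl, rfl, rfl⟩
  | cons i μ ih =>
    obtain ⟨β, rfl, rfl, h⟩ := h
    rw [List.map_cons, List.pairwise_cons] at h2
    have h4 : input ((i :: μ).map P.rule) = (P.rule i).inp ++ input (μ.map P.rule) := rfl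
    rw [h4, ← List.append_assoc] at h3
    have h5 : tr rk P s i (P.ann i, (s.2.toList ++ (P.rule i).inp).getLast?) := by
      refine ⟨h1 _ (by simp), rfl, ?_, rfl⟩
      exact (List.pairwise_append.1 h3).1
    obtain ⟨ν, s', rfl, h6⟩ := ih (s := (P.ann i, (s.2.toList ++ (P.rule i).inp).getLast?)) h
      h2.1 h2.2 (srt_last rk h3)
    exact ⟨⟨(s, i, _), h5⟩ :: ν, s', rfl, β, rfl, rfl, h6⟩

theorem out_letters (μ : List (CL rk P)) :
    (μ.flatMap (co P)).filterMap Sum.getLeft? = input ((μ.map fun x => x.1.2.1).map P.rule) := by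
  induction μ with
  | nil => rfl
  | cons x μ ih =>
    rw [List.flatMap_cons, List.filterMap_append, ih]
    have : (co P x).filterMap Sum.getLeft? = (P.rule x.1.2.1).inp := by
      unfold co
      rw [List.filterMap_cons_none (by rfl), List.filterMap_map]
      have : ((Sum.getLeft? : A ⊕ Fin (n + 1) → Option A) ∘ Sum.inl) = some := rfl
      rw [this, List.filterMap_some]
    rw [this]
    rfl

theorem count_inl {B : Type} [DecidableEq A] [DecidableEq B] (z : List (A ⊕ B)) (a : A) :
    vec z (Sum.inl a) = (z.filterMap Sum.getLeft?).count a := by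
  induction z with
  | nil => rfl
  | cons x z ih =>
    rw [vec_cons, List.filterMap_cons, ih]
    cases x with
    | inl b => simp [List.count_cons]
    | inr b => simp

theorem count_inr [DecidableEq A] (μ : List (CL rk P)) (j : Fin (n + 1)) :
    vec (μ.flatMap (co P)) (Sum.inr j) = ((μ.map fun x => x.1.2.1).map P.ann).count j := by
  induction μ with
  | nil => rfl
  | cons x μ ih =>
    rw [List.flatMap_cons, vec_append, Pi.add_apply, ih, List.map_cons, List.map_cons,
      List.count_cons]
    have h : vec (co P x) (Sum.inr j) = if P.ann x.1.2.1 == j then 1 else 0 := by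
      unfold co
      rw [vec_cons, vec_eq_zero (by simp)]
      simp
    rw [h, add_comm]

theorem srt_square {u : List A} (hrk : Function.Injective rk) (h : Srt rk (u ++ u)) {a b : A}
    (ha : a ∈ u) (hb : b ∈ u) : a = b := by
  have h1 := (List.pairwise_append.1 h).2.2
  exact hrk (le_antisymm (h1 a ha b hb) (h1 b hb a ha))

/-- The lower bound: a language of sorted words in which all letters occur equally often. -/
theorem lower [Fintype A] [DecidableEq A] (hrk : Function.Injective rk) (P : LP A n)
    (hP : P.Lang = {w | Srt rk w ∧ ∃ m, ∀ a, w.count a = m})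
    (hW : ∀ m, ∃ w, Srt rk w ∧ ∀ a, w.count a = m) : Fintype.card A ≤ 2 * (n + 1) := by
  classical
  have hQ := P.finQ
  have hι := P.finι
  by_cases hA : IsEmpty A
  · simp
  rw [not_isEmpty_iff] at hA
  obtain ⟨a0⟩ := hA
  -- computations for all `m`
  have h1 : ∀ m, ∃ (w : List A) (μ : List P.ι) (k : ℕ) (f : P.Q), (∀ a, w.count a = m) ∧
      Srt rk w ∧ f ∈ P.F ∧ Comp (μ.map P.rule) [P.Z0] P.q0 [] f ∧
      μ.map P.ann = pattern n k ∧ input (μ.map P.rule) = w := by
    intro m
    obtain ⟨w, hw1, hw2⟩ := hW m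
    have hw : w ∈ P.Lang := by
      rw [hP]
      exact ⟨hw1, m, hw2⟩
    obtain ⟨μ, k, ⟨f, hf, hc⟩, h2, h3⟩ := hw
    exact ⟨w, μ, k, f, hw2, hw1, hf, hc, h2, h3⟩
  choose w μ k f hcount hsrt hf hcomp hann hin using h1
  have h2 : ∀ m, ∃ (ν : List (CL rk P)) (s' : CS A n), (ν.map fun x => x.1.2.1) = μ m ∧
      Comp (ν.map (cr P)) [P.Z0] (P.q0, (0, none)) [] (f m, s') := by
    intro m
    refine ctl_lift (hcomp m) (fun j _ => Fin.zero_le _) ?_ ?_
    · rw [hann]
      exact pattern_sorted n (k m)
    · rw [hin]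
      simpa using hsrt m
  choose ν s' hν hc' using h2
  -- a subsequence with constant final state
  have hwqo : WellQuasiOrdered ((· = ·) : P.Q × CS A n → P.Q × CS A n → Prop) :=
    Finite.wellQuasiOrdered _
  have hpre : IsPreorder (P.Q × CS A n) (· = ·) := ⟨⟩
  obtain ⟨g, hg⟩ := hwqo.exists_monotone_subseq (fun m => (f m, s' m))
  have hg0 : ∀ m, (f (g m), s' (g m)) = (f (g 0), s' (g 0)) := fun m => (hg 0 m (by omega)).symm
  have hmem : ∀ m, (ν (g m)).flatMap (co P) ∈ (gram (cr (rk := rk) P) (co P) P.Z0).L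
      ([P.Z0], (P.q0, (0, none)), (f (g 0), s' (g 0))) := by
    intro m
    rw [gram_lang]
    refine ⟨ν (g m), ?_, rfl⟩
    rw [← hg0 m]
    exact hc' _
  obtain ⟨m1, m2, hm, S, hS1, hS2, δ, hδ, hvec⟩ := exists_pumps _ _ hmem
  -- facts on the words of the grammar
  have hL : ∀ z ∈ (gram (cr (rk := rk) P) (co P) P.Z0).L
      ([P.Z0], (P.q0, (0, none)), (f (g 0), s' (g 0))),
      Srt rk (z.filterMap Sum.getLeft?) ∧ ((∀ j, vec z (.inr j) = vec z (.inr 0)) →
        ∀ a b, vec z (.inl a) = vec z (.inl b)) := by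
    intro z hz
    rw [gram_lang] at hz
    obtain ⟨μ', h3, rfl⟩ := hz
    obtain ⟨b1, b2, b3, b4⟩ := ctl_proj h3
    rw [out_letters]
    have b5 : Srt rk (input ((μ'.map fun x => x.1.2.1).map P.rule)) := by
      have := b4 (by simp [Srt])
      simpa using this
    refine ⟨b5, fun hbal a b => ?_⟩
    simp only [count_inr] at hbal
    have h4 := eq_pattern b3 hbal
    have h5 : input ((μ'.map fun x => x.1.2.1).map P.rule) ∈ P.Lang :=
      ⟨_, _, ⟨_, hf _, b1⟩, h4, rfl⟩
    rw [hP] at h5
    obtain ⟨-, m, h6⟩ := h5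
    simp only [count_inl, out_letters]
    rw [h6, h6]
  have hv : ∀ m, (∀ a, vec ((ν (g m)).flatMap (co P)) (.inl a) = g m) ∧
      ∀ j, vec ((ν (g m)).flatMap (co P)) (.inr j) = k (g m) := by
    intro m
    constructor
    · intro a
      simp only [count_inl, out_letters]
      rw [hν, hin, hcount]
    · intro j
      simp only [count_inr]
      rw [hν, hann, pattern_count]
  refine card_le S ?_ ?_ ⟨δ, hδ, ?_, a0, ?_⟩
  · intro p hp
    obtain ⟨u, v, rfl, x, z, y, h3⟩ := hS1 hp
    have h4 := (hL _ (h3 2)).1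
    have h5 : ∀ u : List (A ⊕ Fin (n + 1)), pw u 2 = u ++ u := by
      intro u
      simp [pw, List.replicate_succ]
    simp only [h5, List.filterMap_append] at h4
    have key : ∀ u : List (A ⊕ Fin (n + 1)),
        Srt rk (u.filterMap Sum.getLeft? ++ u.filterMap Sum.getLeft?) →
        ∃ a, ∀ c, c ≠ a → vec u (.inl c) = 0 := by
      intro u hu
      cases hu' : u.filterMap Sum.getLeft? with
      | nil =>
        refine ⟨a0, fun c _ => ?_⟩
        simp [count_inl, hu']
      | cons a l =>
        refine ⟨a, fun c hc => ?_⟩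
        simp only [count_inl]
        rw [List.count_eq_zero]
        intro hmem
        exact hc (srt_square hrk hu hmem (by rw [hu']; simp))
    unfold Srt at h4 key
    obtain ⟨a, ha⟩ := key u (by
      rw [List.pairwise_append, List.pairwise_append, List.pairwise_append,
        List.pairwise_append] at h4
      exact h4.1.1.1.2.1)
    obtain ⟨b, hb⟩ := key v (by
      rw [List.pairwise_append, List.pairwise_append] at h4
      exact h4.1.2.1)
    refine ⟨a, b, fun c h6 h7 => ?_⟩
    rw [Pi.add_apply, ha c h6, hb c h7]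
  · intro δ' hδ' hbal a b
    obtain ⟨x, hx, hxv⟩ := hS2 δ' hδ'
    have h3 := (hL x hx).2 (by
      intro j
      rw [hxv, Pi.add_apply, Pi.add_apply, (hv m1).2, (hv m1).2, hbal j])
    have h4 := h3 a b
    rw [hxv, Pi.add_apply, Pi.add_apply, (hv m1).1, (hv m1).1] at h4
    exact Nat.add_left_cancel h4
  · intro j
    have h3 := congrFun hvec (.inr j)
    have h4 := congrFun hvec (.inr 0)
    rw [Pi.add_apply, (hv m1).2, (hv m2).2] at h3 h4
    omega
  · have h3 := congrFun hvec (.inl a0)
    rw [Pi.add_apply, (hv m1).1, (hv m2).1] at h3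
    have h4 : g m1 < g m2 := g.lt_iff_lt.2 hm
    omega

end

end Q222.FS
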