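import Mathlib
import Pool.Agent.Q222.FS.Low

/-!
# The witness language is accepted by an annotated automaton
-/

set_option autoImplicit false

namespace Q222.FS

variable (n : ℕ)

/-- The automaton: in block `j` it reads `(j, false)^m (j, true)^m`. -/
abbrev cp : LP (Fin (n + 1) × Bool) n where
  Q := Option (Fin (n + 1) × Bool)
  Γ := Bool
  ι := (Fin (n + 1) × Bool) ⊕ (Fin (n + 1) × Bool) ⊕ Fin (n + 1) ⊕ Fin (n + 1)
  finQ := inferInstance
  finΓ := inferInstance
  finι := inferInstance
  rule x := match x with
    | .inl (j, X) => ⟨X, some (j, false), [(j, false)], [true, X], some (j, false)⟩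
    | .inr (.inl (j, X)) => ⟨X, some (j, false), [], [X], some (j, true)⟩
    | .inr (.inr (.inl j)) => ⟨true, some (j, true), [(j, true)], [], some (j, true)⟩
    | .inr (.inr (.inr j)) => if h : j.1 + 1 < n + 1 then
        ⟨false, some (j, true), [], [false], some (⟨j.1 + 1, h⟩, false)⟩
        else ⟨false, some (j, true), [], [], none⟩
  ann x := match x with
    | .inl (j, _) => j
    | .inr (.inl (j, _)) => j
    | .inr (.inr (.inl j)) => j
    | .inr (.inr (.inr j)) => j
  q0 := some (0, false)
  Z0 := false
  F := {none}

/-- the order on the letters -/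
def rk (a : Fin (n + 1) × Bool) : ℕ := 2 * a.1.1 + (if a.2 then 1 else 0)

theorem rk_inj : Function.Injective (rk n) := by
  rintro ⟨i, b⟩ ⟨j, c⟩ h
  simp only [rk] at h
  have : i = j := by
    apply Fin.ext
    split_ifs at h <;> omega
  subst this
  cases b <;> cases c <;> simp at h <;> rfl

variable {n}

theorem comp_nil_stack {Λ Q Γ : Type} {μ : List (Rule Λ Q Γ)} {q q' : Q} {α : List Γ}
    (h : Comp μ [] q α q') : μ = [] := by
  cases μ with
  | nil => rfl
  | cons r μ =>
    obtain ⟨β, h1, -⟩ := h
    simp at h1

/-- popping -/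
theorem cp_down {μ : List (cp n).ι} {i : ℕ} {j : Fin (n + 1)}
    (h : Comp (μ.map (cp n).rule) (List.replicate i true ++ [false]) (some (j, true)) [] none) :
    ∃ μ', input (μ.map (cp n).rule) =
        List.replicate i (j, true) ++ input (μ'.map (cp n).rule) ∧
      μ.map (cp n).ann = List.replicate (i + 1) j ++ μ'.map (cp n).ann ∧
      ((∃ hj : j.1 + 1 < n + 1, Comp (μ'.map (cp n).rule) [false] (some (⟨j.1 + 1, hj⟩, false))
        [] none) ∨ (j.1 = n ∧ μ' = [])) := by
  induction μ generalizing i with
  | nil =>
    obtain ⟨h, -⟩ := h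
    simp at h
  | cons x μ ih =>
    obtain ⟨β, h1, h2, h3⟩ := h
    rcases x with ⟨j', X⟩ | ⟨j', X⟩ | j' | j'
    · simp at h2
    · simp at h2
    · simp only [Option.some.injEq, Prod.mk.injEq, and_true] at h2
      subst h2
      cases i with
      | zero => simp at h1
      | succ i =>
        rw [List.replicate_succ, List.cons_append] at h1
        obtain ⟨-, rfl⟩ := List.cons.inj h1
        obtain ⟨μ', a1, a2, a3⟩ := ih h3
        refine ⟨μ', ?_, ?_, a3⟩
        · rw [List.map_cons, input_cons, a1]
          rfl
        · rw [List.map_cons, a2]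
          rfl
    · have hj : j' = j := by
        by_cases hlt : j'.1 + 1 < n + 1
        · simp only [hlt, dif_pos, Option.some.injEq, Prod.mk.injEq, and_true] at h2
          exact h2.symm
        · simp only [hlt, dif_neg, not_false_eq_true, Option.some.injEq, Prod.mk.injEq,
            and_true] at h2
          exact h2.symm
      subst hj
      have hi : i = 0 ∧ β = [] := by
        have h4 : List.replicate i true ++ [false] = false :: β := by
          by_cases hlt : j'.1 + 1 < n + 1
          · simpa only [hlt, dif_pos] using h1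
          · simpa only [hlt, dif_neg, not_false_eq_true] using h1
        cases i with
        | zero =>
          refine ⟨rfl, ?_⟩
          simpa using h4.symm
        | succ i => simp [List.replicate_succ] at h4
      obtain ⟨rfl, rfl⟩ := hi
      refine ⟨μ, ?_, ?_, ?_⟩
      · rw [List.map_cons, input_cons]
        by_cases hlt : j'.1 + 1 < n + 1
        · simp only [hlt, dif_pos]
          rfl
        · simp only [hlt, dif_neg, not_false_eq_true]
          rfl
      · rfl
      · by_cases hlt : j'.1 + 1 < n + 1
        · left
          refine ⟨hlt, ?_⟩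
          simp only [hlt, dif_pos] at h3
          exact h3
        · right
          simp only [hlt, dif_neg, not_false_eq_true] at h3
          have h5 := comp_nil_stack h3
          refine ⟨by have := j'.2; omega, ?_⟩
          simpa using h5

/-- pushing -/
theorem cp_up {μ : List (cp n).ι} {i : ℕ} {j : Fin (n + 1)}
    (h : Comp (μ.map (cp n).rule) (List.replicate i true ++ [false]) (some (j, false)) [] none) :
    ∃ m μ', input (μ.map (cp n).rule) = List.replicate m (j, false) ++
        (List.replicate (i + m) (j, true) ++ input (μ'.map (cp n).rule)) ∧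
      μ.map (cp n).ann = List.replicate (i + 2 * m + 2) j ++ μ'.map (cp n).ann ∧
      ((∃ hj : j.1 + 1 < n + 1, Comp (μ'.map (cp n).rule) [false] (some (⟨j.1 + 1, hj⟩, false))
        [] none) ∨ (j.1 = n ∧ μ' = [])) := by
  induction μ generalizing i with
  | nil =>
    obtain ⟨h, -⟩ := h
    simp at h
  | cons x μ ih =>
    obtain ⟨β, h1, h2, h3⟩ := h
    rcases x with ⟨j', X⟩ | ⟨j', X⟩ | j' | j'
    · simp only [Option.some.injEq, Prod.mk.injEq, and_true] at h2
      subst h2
      have h4 : List.replicate (i + 1) true ++ [false] = [true, X] ++ β := by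
        rw [List.replicate_succ, List.cons_append, h1]
        rfl
      rw [← h4] at h3
      obtain ⟨m, μ', a1, a2, a3⟩ := ih h3
      refine ⟨m + 1, μ', ?_, ?_, a3⟩
      · rw [List.map_cons, input_cons, a1]
        have : i + (m + 1) = i + 1 + m := by omega
        rw [this]
        rfl
      · rw [List.map_cons, a2]
        have : i + 2 * (m + 1) + 2 = (i + 1 + 2 * m + 2) + 1 := by omega
        rw [this]
        rfl
    · simp only [Option.some.injEq, Prod.mk.injEq, and_true] at h2
      subst h2
      have h4 : List.replicate i true ++ [false] = [X] ++ β := h1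
      rw [← h4] at h3
      obtain ⟨μ', a1, a2, a3⟩ := cp_down h3
      refine ⟨0, μ', ?_, ?_, a3⟩
      · rw [List.map_cons, input_cons, a1]
        rfl
      · rw [List.map_cons, a2]
        rfl
    · simp at h2
    · by_cases hlt : j'.1 + 1 < n + 1
      · simp [hlt] at h2
      · simp [hlt] at h2

theorem srt_block {j : Fin (n + 1)} {m : ℕ} {w : List (Fin (n + 1) × Bool)} (hw : Srt (rk n) w)
    (hlt : ∀ x ∈ w, j < x.1) :
    Srt (rk n) (List.replicate m (j, false) ++ (List.replicate m (j, true) ++ w)) := by
  unfold Srt at *
  rw [List.pairwise_append, List.pairwise_append]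
  refine ⟨List.pairwise_replicate.2 (Or.inr le_rfl),
    ⟨List.pairwise_replicate.2 (Or.inr le_rfl), hw, ?_⟩, ?_⟩
  · intro a ha b hb
    rw [List.eq_of_mem_replicate ha]
    have h1 : j.1 < b.1.1 := hlt b hb
    simp only [rk, if_true]
    omega
  · intro a ha b hb
    rw [List.eq_of_mem_replicate ha]
    rcases List.mem_append.1 hb with hb | hb
    · rw [List.eq_of_mem_replicate hb]
      simp [rk]
    · have h1 : j.1 < b.1.1 := hlt b hb
      simp only [rk]
      split_ifs <;> omega

/-- analysis of the accepting computations -/
theorem cp_sound (d : ℕ) (j : Fin (n + 1)) (hd : n - j.1 = d) {μ : List (cp n).ι}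
    (h : Comp (μ.map (cp n).rule) [false] (some (j, false)) [] none) :
    Srt (rk n) (input (μ.map (cp n).rule)) ∧ (∀ x ∈ input (μ.map (cp n).rule), j ≤ x.1) ∧
      (∀ x ∈ μ.map (cp n).ann, j ≤ x) ∧
      ∃ m : Fin (n + 1) → ℕ, ∀ t, j ≤ t → (∀ b, (input (μ.map (cp n).rule)).count (t, b) = m t) ∧
        (μ.map (cp n).ann).count t = 2 * m t + 2 := by
  induction d generalizing j μ with
  | zero =>
    obtain ⟨m, μ', a1, a2, a3⟩ := cp_up (i := 0) h
    have hj : j.1 = n := by have := j.2; omega
    have hμ' : μ' = [] := by
      rcases a3 with ⟨hj', -⟩ | ⟨-, h⟩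
      · omega
      · exact h
    subst hμ'
    rw [Nat.zero_add] at a1 a2
    rw [a1, a2]
    have hin : input (([] : List (cp n).ι).map (cp n).rule) = [] := rfl
    rw [hin]
    refine ⟨srt_block (by simp [Srt]) (by simp), ?_, ?_, fun _ => m, ?_⟩
    · intro x hx
      simp only [List.append_nil, List.mem_append] at hx
      rcases hx with hx | hx <;> rw [List.eq_of_mem_replicate hx]
    · intro x hx
      simp only [List.map_nil, List.append_nil] at hx
      rw [List.eq_of_mem_replicate hx]
    · intro t ht
      have : t = j := by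
        apply Fin.ext
        have h1 : j.1 ≤ t.1 := ht
        have := t.2
        omega
      subst this
      constructor
      · intro b
        cases b <;> simp [List.count_replicate]
      · simp
  | succ d ih =>
    obtain ⟨m, μ', a1, a2, a3⟩ := cp_up (i := 0) h
    rcases a3 with ⟨hj', h'⟩ | ⟨h', -⟩
    swap
    · omega
    obtain ⟨b1, b2, b3, m', b4⟩ := ih ⟨j.1 + 1, hj'⟩ (by simp only; omega) h'
    rw [Nat.zero_add] at a1 a2
    rw [a1, a2]
    have hlt : ∀ x ∈ input (μ'.map (cp n).rule), j < x.1 := by
      intro x hx
      have h1 : j.1 + 1 ≤ x.1.1 := b2 x hx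
      change j.1 < x.1.1
      omega
    have hlt2 : ∀ x ∈ μ'.map (cp n).ann, j < x := by
      intro x hx
      have h1 : j.1 + 1 ≤ x.1 := b3 x hx
      change j.1 < x.1
      omega
    refine ⟨srt_block b1 hlt, ?_, ?_, fun t => if t = j then m else m' t, ?_⟩
    · intro x hx
      simp only [List.mem_append] at hx
      rcases hx with hx | hx | hx
      · rw [List.eq_of_mem_replicate hx]
      · rw [List.eq_of_mem_replicate hx]
      · exact (hlt x hx).le
    · intro x hx
      simp only [List.mem_append] at hx
      rcases hx with hx | hx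
      · rw [List.eq_of_mem_replicate hx]
      · exact (hlt2 x hx).le
    · intro t ht
      by_cases htj : t = j
      · subst htj
        have c1 : ∀ b, (input (μ'.map (cp n).rule)).count (t, b) = 0 := by
          intro b
          rw [List.count_eq_zero]
          intro hmem
          exact lt_irrefl _ (hlt _ hmem)
        have c2 : (μ'.map (cp n).ann).count t = 0 := by
          rw [List.count_eq_zero]
          intro hmem
          exact lt_irrefl _ (hlt2 _ hmem)
        constructor
        · intro b
          rw [List.count_append, List.count_append, c1]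
          cases b <;> simp [List.count_replicate]
        · rw [List.count_append, c2]
          simp
      · have h1 : (⟨j.1 + 1, hj'⟩ : Fin (n + 1)) ≤ t := by
          have h2 : j.1 ≤ t.1 := ht
          have h3 : t.1 ≠ j.1 := fun h => htj (Fin.ext h)
          change j.1 + 1 ≤ t.1
          omega
        obtain ⟨c1, c2⟩ := b4 t h1
        constructor
        · intro b
          rw [List.count_append, List.count_append, c1]
          simp [List.count_replicate, Ne.symm htj, htj]
        · rw [List.count_append, c2]
          simp [List.count_replicate, Ne.symm htj, htj]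

theorem cp_pops (j : Fin (n + 1)) (i : ℕ) :
    ∃ μ : List (cp n).ι, Comp (μ.map (cp n).rule) (List.replicate i true ++ [false])
      (some (j, true)) [false] (some (j, true)) ∧
      input (μ.map (cp n).rule) = List.replicate i (j, true) ∧
      μ.map (cp n).ann = List.replicate i j := by
  induction i with
  | zero => exact ⟨[], ⟨rfl, rfl⟩, rfl, rfl⟩
  | succ i ih =>
    obtain ⟨μ, h1, h2, h3⟩ := ih
    refine ⟨.inr (.inr (.inl j)) :: μ, ⟨_, rfl, rfl, h1⟩, ?_, ?_⟩
    · rw [List.map_cons, input_cons, h2]
      rfl
    · rw [List.map_cons, h3]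
      rfl

theorem cp_pushes (j : Fin (n + 1)) (m i : ℕ) :
    ∃ μ : List (cp n).ι, Comp (μ.map (cp n).rule) (List.replicate i true ++ [false])
      (some (j, false)) (List.replicate (i + m) true ++ [false]) (some (j, false)) ∧
      input (μ.map (cp n).rule) = List.replicate m (j, false) ∧
      μ.map (cp n).ann = List.replicate m j := by
  induction m generalizing i with
  | zero => exact ⟨[], ⟨rfl, rfl⟩, rfl, rfl⟩
  | succ m ih =>
    obtain ⟨μ, h1, h2, h3⟩ := ih (i + 1)
    have h4 : ∃ X β, List.replicate i true ++ [false] = X :: β ∧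
        [true, X] ++ β = List.replicate (i + 1) true ++ [false] := by
      cases i with
      | zero => exact ⟨false, [], rfl, rfl⟩
      | succ i => exact ⟨true, _, rfl, rfl⟩
    obtain ⟨X, β, h5, h6⟩ := h4
    rw [h5]
    refine ⟨.inl (j, X) :: μ, ⟨β, rfl, rfl, ?_⟩, ?_, ?_⟩
    · have : i + (m + 1) = i + 1 + m := by omega
      rw [this]
      change Comp _ ([true, X] ++ β) _ _ _
      rw [h6]
      exact h1
    · rw [List.map_cons, input_cons, h2]
      rfl
    · rw [List.map_cons, h3]
      rfl

/-- one block -/
theorem cp_block (j : Fin (n + 1)) (m : ℕ) :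
    ∃ μ : List (cp n).ι, Comp (μ.map (cp n).rule) [false]
      (some (j, false)) [false] (some (j, true)) ∧
      input (μ.map (cp n).rule) = List.replicate m (j, false) ++ List.replicate m (j, true) ∧
      μ.map (cp n).ann = List.replicate (2 * m + 1) j := by
  obtain ⟨μ1, a1, a2, a3⟩ := cp_pushes j m 0
  obtain ⟨μ2, b1, b2, b3⟩ := cp_pops j m
  rw [Nat.zero_add] at a1
  have h4 : ∃ X β, List.replicate m true ++ [false] = X :: β := by
    cases m with
    | zero => exact ⟨false, [], rfl⟩
    | succ i => exact ⟨true, _, rfl⟩
  obtain ⟨X, β, h5⟩ := h4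
  refine ⟨μ1 ++ (.inr (.inl (j, X)) :: μ2), ?_, ?_, ?_⟩
  · rw [List.map_append, comp_append]
    refine ⟨_, _, a1, β, h5, rfl, ?_⟩
    change Comp _ (X :: β) _ _ _
    rw [← h5]
    exact b1
  · rw [List.map_append, List.map_cons]
    unfold input at *
    rw [List.flatMap_append, List.flatMap_cons, a2, b2]
    rfl
  · rw [List.map_append, List.map_cons, a3, b3]
    change List.replicate m j ++ ([j] ++ List.replicate m j) = _
    rw [← List.replicate_one, List.replicate_append_replicate, List.replicate_append_replicate]
    congr 1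
    omega

/-- existence of the computations -/
theorem cp_complete (m d : ℕ) (j : Fin (n + 1)) (hd : n - j.1 = d) :
    ∃ μ : List (cp n).ι, Comp (μ.map (cp n).rule) [false] (some (j, false)) [] none ∧
      (μ.map (cp n).ann).Pairwise (· ≤ ·) ∧
      (∀ t, j ≤ t → (∀ b, (input (μ.map (cp n).rule)).count (t, b) = m)) ∧
      (∀ t, j ≤ t → (μ.map (cp n).ann).count t = 2 * m + 2) ∧
      (∀ x ∈ μ.map (cp n).ann, j ≤ x) ∧ ∀ x ∈ input (μ.map (cp n).rule), j ≤ x.1 := by
  induction d generalizing j with
  | zero =>
    obtain ⟨μ, a1, a2, a3⟩ := cp_block j m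
    have hj : j.1 = n := by have := j.2; omega
    have hlt : ¬ (j.1 + 1 < n + 1) := by omega
    have hin : input ((μ ++ [(.inr (.inr (.inr j)) : (cp n).ι)]).map (cp n).rule) =
        List.replicate m (j, false) ++ List.replicate m (j, true) := by
      rw [List.map_append]
      unfold input at *
      rw [List.flatMap_append, a2]
      have hlt' : ¬ (j.1 < n) := by omega
      simp [hlt']
    have hann : (μ ++ [(.inr (.inr (.inr j)) : (cp n).ι)]).map (cp n).ann =
        List.replicate (2 * m + 2) j := by
      rw [List.map_append, a3]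
      change List.replicate (2 * m + 1) j ++ [j] = _
      rw [← List.replicate_one, List.replicate_append_replicate]
    refine ⟨μ ++ [.inr (.inr (.inr j))], ?_, ?_, ?_, ?_, ?_, ?_⟩
    · rw [List.map_append, comp_append]
      refine ⟨_, _, a1, ?_⟩
      rw [List.map_singleton]
      simp only [hlt, dif_neg, not_false_eq_true]
      exact ⟨[], rfl, rfl, rfl, rfl⟩
    · rw [hann]
      exact List.pairwise_replicate.2 (Or.inr le_rfl)
    · intro t ht b
      have : t = j := by
        apply Fin.ext
        have h1 : j.1 ≤ t.1 := ht
        have := t.2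
        omega
      subst this
      rw [hin]
      cases b <;> simp [List.count_replicate]
    · intro t ht
      have : t = j := by
        apply Fin.ext
        have h1 : j.1 ≤ t.1 := ht
        have := t.2
        omega
      subst this
      rw [hann]
      simp
    · intro x hx
      rw [hann] at hx
      rw [List.eq_of_mem_replicate hx]
    · intro x hx
      rw [hin, List.mem_append] at hx
      rcases hx with hx | hx <;> rw [List.eq_of_mem_replicate hx]
  | succ d ih =>
    have hj : j.1 + 1 < n + 1 := by omega
    obtain ⟨μ, a1, a2, a3⟩ := cp_block j m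
    obtain ⟨μ', b1, b2, b3, b4, b5, b6⟩ := ih ⟨j.1 + 1, hj⟩ (by simp only; omega)
    have hin : input ((μ ++ (.inr (.inr (.inr j)) : (cp n).ι) :: μ').map (cp n).rule) =
        List.replicate m (j, false) ++ (List.replicate m (j, true) ++
          input (μ'.map (cp n).rule)) := by
      rw [List.map_append, List.map_cons]
      unfold input at *
      rw [List.flatMap_append, List.flatMap_cons, a2]
      simp [hj]
    have hann : (μ ++ (.inr (.inr (.inr j)) : (cp n).ι) :: μ').map (cp n).ann =
        List.replicate (2 * m + 2) j ++ μ'.map (cp n).ann := by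
      rw [List.map_append, List.map_cons, a3]
      change List.replicate (2 * m + 1) j ++ ([j] ++ _) = _
      rw [← List.append_assoc, ← List.replicate_one, List.replicate_append_replicate]
    have hlt : ∀ x ∈ input (μ'.map (cp n).rule), j < x.1 := by
      intro x hx
      have h1 : j.1 + 1 ≤ x.1.1 := b6 x hx
      change j.1 < x.1.1
      omega
    have hlt2 : ∀ x ∈ μ'.map (cp n).ann, j < x := by
      intro x hx
      have h1 : j.1 + 1 ≤ x.1 := b5 x hx
      change j.1 < x.1
      omega
    refine ⟨μ ++ .inr (.inr (.inr j)) :: μ', ?_, ?_, ?_, ?_, ?_, ?_⟩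
    · rw [List.map_append, comp_append]
      refine ⟨_, _, a1, ?_⟩
      rw [List.map_cons]
      simp only [hj, dif_pos]
      exact ⟨[], rfl, rfl, b1⟩
    · rw [hann, List.pairwise_append]
      refine ⟨List.pairwise_replicate.2 (Or.inr le_rfl), b2, ?_⟩
      intro x hx y hy
      rw [List.eq_of_mem_replicate hx]
      exact (hlt2 y hy).le
    · intro t ht b
      rw [hin]
      by_cases htj : t = j
      · subst htj
        have c1 : ∀ b, (input (μ'.map (cp n).rule)).count (t, b) = 0 := by
          intro b
          rw [List.count_eq_zero]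
          intro hmem
          exact lt_irrefl _ (hlt _ hmem)
        rw [List.count_append, List.count_append, c1]
        cases b <;> simp [List.count_replicate]
      · have h1 : (⟨j.1 + 1, hj⟩ : Fin (n + 1)) ≤ t := by
          have h2 : j.1 ≤ t.1 := ht
          have h3 : t.1 ≠ j.1 := fun h => htj (Fin.ext h)
          change j.1 + 1 ≤ t.1
          omega
        rw [List.count_append, List.count_append, b3 t h1]
        simp [List.count_replicate, Ne.symm htj]
    · intro t ht
      rw [hann]
      by_cases htj : t = j
      · subst htj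
        have c2 : (μ'.map (cp n).ann).count t = 0 := by
          rw [List.count_eq_zero]
          intro hmem
          exact lt_irrefl _ (hlt2 _ hmem)
        rw [List.count_append, c2]
        simp
      · have h1 : (⟨j.1 + 1, hj⟩ : Fin (n + 1)) ≤ t := by
          have h2 : j.1 ≤ t.1 := ht
          have h3 : t.1 ≠ j.1 := fun h => htj (Fin.ext h)
          change j.1 + 1 ≤ t.1
          omega
        rw [List.count_append, b4 t h1]
        simp [List.count_replicate, Ne.symm htj]
    · intro x hx
      rw [hann, List.mem_append] at hx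
      rcases hx with hx | hx
      · rw [List.eq_of_mem_replicate hx]
      · exact (hlt2 x hx).le
    · intro x hx
      rw [hin, List.mem_append, List.mem_append] at hx
      rcases hx with hx | hx | hx
      · rw [List.eq_of_mem_replicate hx]
      · rw [List.eq_of_mem_replicate hx]
      · exact (hlt x hx).le

/-- The language of the automaton. -/
theorem cp_lang : (cp n).Lang = {w | Srt (rk n) w ∧ ∃ m, ∀ a, w.count a = m} := by
  ext w
  constructor
  · rintro ⟨μ, k, ⟨f, hf, hc⟩, hann, rfl⟩
    have hf : f = none := hf
    subst hf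
    obtain ⟨a1, -, -, m, a2⟩ := cp_sound (n - 0) 0 rfl hc
    refine ⟨a1, m 0, ?_⟩
    rintro ⟨t, b⟩
    have h1 := (a2 t (Fin.zero_le _)).2
    have h2 := (a2 0 (Fin.zero_le _)).2
    rw [hann, pattern_count] at h1 h2
    rw [(a2 t (Fin.zero_le _)).1 b]
    omega
  · rintro ⟨hw, m, hm⟩
    obtain ⟨μ, a1, a2, a3, a4, -, -⟩ := cp_complete (n := n) m (n - 0) 0 rfl
    refine ⟨μ, 2 * m + 2, ⟨none, rfl, a1⟩, eq_pattern a2 fun j => a4 j (Fin.zero_le _), ?_⟩
    have h1 := (cp_sound (n - 0) 0 rfl a1).1
    refine List.Perm.eq_of_pairwise (le := fun a b => rk n a ≤ rk n b)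
      (fun a b _ _ h3 h4 => rk_inj n (le_antisymm h3 h4)) h1 hw ?_
    rw [List.perm_iff_count]
    rintro ⟨t, b⟩
    rw [a3 t (Fin.zero_le _), hm]

theorem cp_exists (m : ℕ) : ∃ w : List (Fin (n + 1) × Bool), Srt (rk n) w ∧
    ∀ a, w.count a = m := by
  obtain ⟨μ, a1, a2, a3, a4, -, -⟩ := cp_complete (n := n) m (n - 0) 0 rfl
  exact ⟨_, (cp_sound (n - 0) 0 rfl a1).1, fun a => a3 a.1 (Fin.zero_le _) a.2⟩

end Q222.FS
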