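import Mathlib
import Pool.Agent.Q222.FS.Conc

/-!
# One more block
-/

set_option autoImplicit false

namespace Q222.FS

variable {Λ : Type} {n : ℕ} (P : LP Λ n)

/-- the automaton with one more block of idle moves -/
abbrev ext : LP Λ (n + 1) where
  Q := P.Q ⊕ Fin 3
  Γ := Option P.Γ
  ι := P.ι ⊕ {i : P.ι // (P.rule i).top = P.Z0 ∧ (P.rule i).src = P.q0} ⊕
    (({q // q ∈ P.F} ⊕ Unit) × Bool)
  finQ := by have := P.finQ; infer_instance
  finΓ := by have := P.finΓ; infer_instance
  finι := by have := P.finQ; have := P.finι; infer_instance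
  rule x := match x with
    | .inl i => ⟨some (P.rule i).top, .inl (P.rule i).src, (P.rule i).inp,
        (P.rule i).push.map some, .inl (P.rule i).tgt⟩
    | .inr (.inl i) => ⟨none, .inr 0, (P.rule i.1).inp,
        (P.rule i.1).push.map some ++ [none], .inl (P.rule i.1).tgt⟩
    | .inr (.inr (.inl q, true)) => ⟨none, .inl q.1, [], [], .inr 2⟩
    | .inr (.inr (.inl q, false)) => ⟨none, .inl q.1, [], [none], .inr 1⟩
    | .inr (.inr (.inr _, true)) => ⟨none, .inr 1, [], [], .inr 2⟩
    | .inr (.inr (.inr _, false)) => ⟨none, .inr 1, [], [none], .inr 1⟩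
  ann x := match x with
    | .inl i => (P.ann i).castSucc
    | .inr (.inl i) => (P.ann i.1).castSucc
    | .inr (.inr _) => Fin.last _
  q0 := .inr 0
  Z0 := none
  F := {.inr 2}

variable {P}

theorem ext_idle {μ : List (ext P).ι} (h : Comp (μ.map (ext P).rule) [none] (.inr 1) [] (.inr 2)) :
    (μ.map (ext P).ann) = List.replicate μ.length (Fin.last _) ∧
      input (μ.map (ext P).rule) = [] := by
  induction μ with
  | nil =>
    obtain ⟨h, -⟩ := h
    simp at h
  | cons x μ ih =>
    obtain ⟨β, h1, h2, h3⟩ := h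
    rcases x with i | i | ⟨⟨q⟩ | u, _ | _⟩
    · simp at h1
    · simp at h2
    · simp at h2
    · simp at h2
    · have hβ : β = [] := by simpa using h1.symm
      subst hβ
      obtain ⟨a1, a2⟩ := ih h3
      refine ⟨?_, ?_⟩
      · rw [List.map_cons, a1]; rfl
      · rw [List.map_cons, input_cons, a2]; rfl
    · have hβ : β = [] := by simpa using h1.symm
      subst hβ
      have h4 := comp_nil_stack h3
      have h5 : μ = [] := List.map_eq_nil_iff.1 h4
      subst h5
      exact ⟨rfl, rfl⟩

theorem ext_sim {μ : List (ext P).ι} {α : List P.Γ} {q : P.Q}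
    (h : Comp (μ.map (ext P).rule) (α.map some ++ [none]) (.inl q) [] (.inr 2)) :
    ∃ (ξ : List P.ι) (f : P.Q) (d : ℕ), f ∈ P.F ∧ Comp (ξ.map P.rule) α q [] f ∧
      μ.map (ext P).ann = (ξ.map P.ann).map Fin.castSucc ++ List.replicate d (Fin.last _) ∧
      input (μ.map (ext P).rule) = input (ξ.map P.rule) := by
  induction μ generalizing α q with
  | nil =>
    obtain ⟨h, -⟩ := h
    simp at h
  | cons x μ ih =>
    obtain ⟨β, h1, h2, h3⟩ := h
    rcases x with i | i | ⟨⟨q', hq'⟩ | u, _ | _⟩
    · simp only [Sum.inl.injEq] at h2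
      subst h2
      cases α with
      | nil => simp at h1
      | cons Z α =>
        simp only [List.map_cons, List.cons_append, List.cons.injEq, Option.some.injEq] at h1
        obtain ⟨rfl, rfl⟩ := h1
        have h4 : (P.rule i).push.map some ++ (α.map some ++ [none]) =
            ((P.rule i).push ++ α).map some ++ [none] := by simp
        change Comp (μ.map (ext P).rule) ((P.rule i).push.map some ++ (α.map some ++ [none]))
          (.inl (P.rule i).tgt) _ _ at h3
        rw [h4] at h3
        obtain ⟨ξ, f, d, a1, a2, a3, a4⟩ := ih h3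
        refine ⟨i :: ξ, f, d, a1, ⟨α, rfl, rfl, a2⟩, ?_, ?_⟩
        · rw [List.map_cons, a3]; rfl
        · rw [List.map_cons, input_cons, a4]; rfl
    · simp at h2
    · simp only [Sum.inl.injEq] at h2
      subst h2
      cases α with
      | cons Z α => simp at h1
      | nil =>
        have hβ : β = [] := by simpa using h1.symm
        subst hβ
        obtain ⟨a1, a2⟩ := ext_idle h3
        refine ⟨[], q, μ.length + 1, hq', ⟨rfl, rfl⟩, ?_, ?_⟩
        · rw [List.map_cons, a1]; rfl
        · rw [List.map_cons, input_cons, a2]; rfl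
    · simp only [Sum.inl.injEq] at h2
      subst h2
      cases α with
      | cons Z α => simp at h1
      | nil =>
        have hβ : β = [] := by simpa using h1.symm
        subst hβ
        have h4 := comp_nil_stack h3
        have h5 : μ = [] := List.map_eq_nil_iff.1 h4
        subst h5
        exact ⟨[], q, 1, hq', ⟨rfl, rfl⟩, rfl, rfl⟩
    · simp at h2
    · simp at h2

theorem pattern_succ (n k : ℕ) : pattern (n + 1) k =
    (pattern n k).map Fin.castSucc ++ List.replicate k (Fin.last _) := by
  unfold pattern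
  rw [List.finRange_succ_last, List.flatMap_append, List.flatMap_map, List.map_flatMap]
  simp

theorem ext_idles (k : ℕ) : ∃ μ : List (ext P).ι,
    Comp (μ.map (ext P).rule) [none] (.inr 1) [] (.inr 2) ∧
      μ.map (ext P).ann = List.replicate (k + 1) (Fin.last _) ∧
      input (μ.map (ext P).rule) = [] := by
  induction k with
  | zero => exact ⟨[.inr (.inr (.inr (), true))], ⟨[], rfl, rfl, rfl, rfl⟩, rfl, rfl⟩
  | succ k ih =>
    obtain ⟨μ, a1, a2, a3⟩ := ih
    refine ⟨.inr (.inr (.inr (), false)) :: μ, ⟨[], rfl, rfl, a1⟩, ?_, ?_⟩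
    · rw [List.map_cons, a2]; rfl
    · rw [List.map_cons, input_cons, a3]; rfl

theorem ext_idles' {f : P.Q} (hf : f ∈ P.F) (k : ℕ) : ∃ μ : List (ext P).ι,
    Comp (μ.map (ext P).rule) [none] (.inl f) [] (.inr 2) ∧
      μ.map (ext P).ann = List.replicate (k + 1) (Fin.last _) ∧
      input (μ.map (ext P).rule) = [] := by
  cases k with
  | zero => exact ⟨[.inr (.inr (.inl ⟨f, hf⟩, true))], ⟨[], rfl, rfl, rfl, rfl⟩, rfl, rfl⟩
  | succ k =>
    obtain ⟨μ, a1, a2, a3⟩ := ext_idles (P := P) k
    refine ⟨.inr (.inr (.inl ⟨f, hf⟩, false)) :: μ, ⟨[], rfl, rfl, a1⟩, ?_, ?_⟩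
    · rw [List.map_cons, a2]; rfl
    · rw [List.map_cons, input_cons, a3]; rfl

theorem ext_lift {ξ : List P.ι} {α : List P.Γ} {q f : P.Q} (h : Comp (ξ.map P.rule) α q [] f)
    (hf : f ∈ P.F) (k : ℕ) : ∃ μ : List (ext P).ι,
    Comp (μ.map (ext P).rule) (α.map some ++ [none]) (.inl q) [] (.inr 2) ∧
      μ.map (ext P).ann = (ξ.map P.ann).map Fin.castSucc ++
        List.replicate (k + 1) (Fin.last _) ∧
      input (μ.map (ext P).rule) = input (ξ.map P.rule) := by
  induction ξ generalizing α q with
  | nil =>
    obtain ⟨rfl, rfl⟩ := h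
    obtain ⟨μ, a1, a2, a3⟩ := ext_idles' hf k
    exact ⟨μ, a1, a2, a3⟩
  | cons i ξ ih =>
    obtain ⟨β, rfl, rfl, h⟩ := h
    obtain ⟨μ, a1, a2, a3⟩ := ih h
    refine ⟨.inl i :: μ, ⟨β.map some ++ [none], rfl, rfl, ?_⟩, ?_, ?_⟩
    · have h4 : (P.rule i).push.map some ++ (β.map some ++ [none]) =
          ((P.rule i).push ++ β).map some ++ [none] := by simp
      change Comp (μ.map (ext P).rule) ((P.rule i).push.map some ++ (β.map some ++ [none]))
        (Sum.inl (P.rule i).tgt) _ _
      rw [h4]
      exact a1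
    · rw [List.map_cons, a2]; rfl
    · rw [List.map_cons, input_cons, a3]; rfl

theorem ext_lang : (ext P).Lang = P.Lang := by
  ext w
  constructor
  · rintro ⟨μ, k, ⟨f, hf, hc⟩, hann, rfl⟩
    have hf : f = .inr 2 := hf
    subst hf
    cases μ with
    | nil =>
      obtain ⟨h, -⟩ := hc
      simp at h
    | cons x μ =>
      obtain ⟨β, h1, h2, h3⟩ := hc
      rcases x with i | i | ⟨⟨q', hq'⟩ | u, _ | _⟩
      · simp at h1
      · have hβ : β = [] := by simpa using h1.symm
        subst hβ
        change Comp (μ.map (ext P).rule) (((P.rule i.1).push.map some ++ [none]) ++ [])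
          (.inl (P.rule i.1).tgt) _ _ at h3
        rw [List.append_nil] at h3
        obtain ⟨ξ, f, d, a1, a2, a3, a4⟩ := ext_sim h3
        refine ⟨i.1 :: ξ, k, ⟨f, a1, [], ?_, ?_, ?_⟩, ?_, ?_⟩
        · rw [i.2.1]
        · rw [i.2.2]
        · rw [List.append_nil]; exact a2
        · rw [List.map_cons, a3, pattern_succ] at hann
          have h4 := congrArg (List.filter fun x => decide (x ≠ Fin.last (n + 1))) hann
          have key : ∀ (l : List (Fin (n + 1))) (d : ℕ),
              (l.map Fin.castSucc ++ List.replicate d (Fin.last (n + 1))).filter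
                (fun x => decide (x ≠ Fin.last (n + 1))) = l.map Fin.castSucc := by
            intro l d
            rw [List.filter_append, List.filter_eq_self.2, List.filter_eq_nil_iff.2,
              List.append_nil]
            · intro a ha
              rw [List.eq_of_mem_replicate ha]
              simp
            · intro a ha
              obtain ⟨b, -, rfl⟩ := List.mem_map.1 ha
              simp [Fin.ext_iff]
              omega
          rw [key] at h4
          have h5 : (ext P).ann (.inr (.inl i)) :: ((ξ.map P.ann).map Fin.castSucc ++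
              List.replicate d (Fin.last _)) =
              ((i.1 :: ξ).map P.ann).map Fin.castSucc ++ List.replicate d (Fin.last _) := rfl
          rw [h5, key] at h4
          exact List.map_injective_iff.2 (Fin.castSucc_injective _) h4
        · rw [List.map_cons, input_cons, List.map_cons, input_cons, a4]
      · simp at h2
      · simp at h2
      · simp at h2
      · simp at h2
  · rintro ⟨ξ, k, ⟨f, hf, hc⟩, hann, rfl⟩
    cases ξ with
    | nil =>
      obtain ⟨h, -⟩ := hc
      simp at h
    | cons i ξ =>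
      obtain ⟨β, h1, h2, h3⟩ := hc
      have h1' : P.Z0 = (P.rule i).top ∧ β = [] := by
        obtain ⟨h1, h2⟩ := List.cons.inj h1
        exact ⟨h1, h2.symm⟩
      obtain ⟨h1', rfl⟩ := h1'
      have hk : k ≠ 0 := by
        rintro rfl
        have := congrArg List.length hann
        simp [pattern] at this
      obtain ⟨k, rfl⟩ := Nat.exists_eq_succ_of_ne_zero hk
      rw [List.append_nil] at h3
      obtain ⟨μ, a1, a2, a3⟩ := ext_lift h3 hf k
      refine ⟨.inr (.inl ⟨i, h1'.symm, h2.symm⟩) :: μ, k + 1, ⟨.inr 2, rfl, [], rfl, rfl, ?_⟩,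
        ?_, ?_⟩
      · rw [List.append_nil]; exact a1
      · rw [List.map_cons, a2, pattern_succ, ← hann]
        rfl
      · rw [List.map_cons, input_cons, List.map_cons, input_cons, a3]

end Q222.FS
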