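import Mathlib
import Pool.Agent.Q222.FS.Low

/-!
# From self-regulating automata to annotated automata
-/

set_option autoImplicit false

namespace Q222.FS

theorem lift_list {α : Type} (S : Set α) (b : List α) (h : ∀ r ∈ b, r ∈ S) :
    ∃ b' : List S, b'.map Subtype.val = b := by
  induction b with
  | nil => exact ⟨[], rfl⟩
  | cons a b ih =>
    obtain ⟨b', hb'⟩ := ih fun r hr => h r (by simp [hr])
    exact ⟨⟨a, h a (by simp)⟩ :: b', by simp [hb']⟩

theorem lift_lists {α : Type} (S : Set α) (bs : List (List α)) (h : ∀ r ∈ bs.flatten, r ∈ S) :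
    ∃ bs' : List (List S), bs'.map (List.map Subtype.val) = bs := by
  induction bs with
  | nil => exact ⟨[], rfl⟩
  | cons b bs ih =>
    obtain ⟨b', hb'⟩ := lift_list S b fun r hr => h r (by simp [hr])
    obtain ⟨bs', hbs'⟩ := ih fun r hr => h r (by rw [List.flatten_cons]; simp [hr])
    exact ⟨b' :: bs', by simp [hb', hbs']⟩

section

variable {Λ : Type} {n : ℕ} (M : SPDA Λ)

/-- control states: block number, first rule of the block, whether the turn state was entered -/
abbrev SC (M : SPDA Λ) (n : ℕ) := Option (Fin (n + 1) × M.rules × Bool)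

/-- transitions of the control -/
def strn (s : SC M n) (r : M.rules) (s' : SC M n) : Prop :=
  (s = none ∧ ∃ e', s' = some (0, r, e') ∧ (e' = true ↔ r.1.tgt = M.qt)) ∨
  (∃ j r1 e e', s = some (j, r1, e) ∧ s' = some (j, r1, e') ∧ (j = 0 → e = false) ∧
    (e' = true ↔ (e = true ∨ r.1.tgt = M.qt))) ∨
  (∃ (j j' : Fin (n + 1)) (r1 : M.rules), j'.1 = j.1 + 1 ∧ s = some (j, r1, true) ∧
    s' = some (j', r, true) ∧ M.R r1.1 r.1)

variable {M}

/-- the block number -/
def blk : SC M n → Fin (n + 1)
  | none => 0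
  | some x => x.1

/-- runs of the control -/
def Path : SC M n → List M.rules → List (Fin (n + 1)) → SC M n → Prop
  | s, [], ν, s' => ν = [] ∧ s' = s
  | s, r :: μ, ν, s' => ∃ s1 ν', strn M s r s1 ∧ ν = blk s1 :: ν' ∧ Path s1 μ ν' s'

theorem path_append {s s1 s' : SC M n} {μ μ' : List M.rules} {ν ν' : List (Fin (n + 1))}
    (h : Path s μ ν s1) (h' : Path s1 μ' ν' s') : Path s (μ ++ μ') (ν ++ ν') s' := by
  induction μ generalizing s ν with
  | nil =>
    obtain ⟨rfl, rfl⟩ := h
    exact h'
  | cons r μ ih =>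
    obtain ⟨s2, ν2, h1, rfl, h2⟩ := h
    exact ⟨s2, ν2 ++ ν', h1, rfl, ih h2⟩

/-- the heads of the blocks form a chain -/
def Heads (M : SPDA Λ) : M.rules → List (List M.rules) → Prop
  | _, [] => True
  | r1, b :: bs => ∃ r ρ, b = r :: ρ ∧ M.R r1.1 r.1 ∧ Heads M r bs

theorem path_blocks {j : Fin (n + 1)} {r1 rn : M.rules} {e : Bool} {μ : List M.rules}
    {ν : List (Fin (n + 1))} {jn : Fin (n + 1)}
    (h : Path (some (j, r1, e)) μ ν (some (jn, rn, true))) :
    (∀ x ∈ ν, j ≤ x) ∧ ∃ ρ bs, μ = ρ ++ bs.flatten ∧ bs.length = jn.1 - j.1 ∧ j.1 ≤ jn.1 ∧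
      (ν.map Fin.val).count j.1 = ρ.length ∧
      (∀ t (ht : t < bs.length), (ν.map Fin.val).count (j.1 + 1 + t) = (bs[t]).length) ∧
      Heads M r1 bs ∧
      (j = 0 → e = false → ∃ ρ' r, ρ = ρ' ++ [r] ∧ r.1.tgt = M.qt ∧ ∀ r' ∈ ρ', r'.1.tgt ≠ M.qt) ∧
      (j = 0 → e = true → ρ = []) := by
  induction μ generalizing j r1 e ν with
  | nil =>
    obtain ⟨rfl, h⟩ := h
    simp only [Option.some.injEq, Prod.mk.injEq] at h
    obtain ⟨rfl, rfl, rfl⟩ := h
    refine ⟨by simp, [], [], rfl, by simp, le_rfl, rfl, by simp, trivial, by simp, by simp⟩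
  | cons r μ ih =>
    obtain ⟨s1, ν', h1, rfl, h2⟩ := h
    rcases h1 with ⟨h1, -⟩ | ⟨j', r1', e1, e', h3, rfl, h5, h6⟩ | ⟨j1, j', r1', h3, h4, rfl, h6⟩
    · simp at h1
    · simp only [Option.some.injEq, Prod.mk.injEq] at h3
      obtain ⟨rfl, rfl, rfl⟩ := h3
      obtain ⟨a1, ρ, bs, rfl, a2, a3, a4, a5, a6, a7, a8⟩ := ih h2
      refine ⟨?_, r :: ρ, bs, rfl, a2, a3, ?_, ?_, a6, ?_, ?_⟩
      · intro x hx
        rcases List.mem_cons.1 hx with rfl | hx
        · exact le_rfl
        · exact a1 x hx
      · rw [List.map_cons, List.count_cons, a4]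
        simp [blk]
      · intro t ht
        rw [List.map_cons, List.count_cons, a5 t ht]
        have : ¬ (j.1 = j.1 + 1 + t) := by omega
        simp [blk, this]
      · intro hj he
        by_cases hr : r.1.tgt = M.qt
        · have he' : e' = true := h6.2 (Or.inr hr)
          refine ⟨[], r, ?_, hr, by simp⟩
          rw [a8 hj he']
          rfl
        · have he' : e' = false := by
            by_contra h
            have h := h6.1 (by simpa using h)
            rcases h with h | h
            · rw [he] at h; simp at h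
            · exact hr h
          obtain ⟨ρ', r2, rfl, b1, b2⟩ := a7 hj he'
          refine ⟨r :: ρ', r2, rfl, b1, ?_⟩
          intro r' hr'
          rcases List.mem_cons.1 hr' with rfl | hr'
          · exact hr
          · exact b2 r' hr'
      · intro hj he
        rw [h5 hj] at he
        simp at he
    · simp only [Option.some.injEq, Prod.mk.injEq] at h4
      obtain ⟨rfl, rfl, rfl⟩ := h4
      obtain ⟨a1, ρ, bs, rfl, a2, a3, a4, a5, a6, a7, a8⟩ := ih h2
      have hlt : ∀ x ∈ (blk (some (j', r, true) : SC M n)) :: ν', j < x := by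
        intro x hx
        rcases List.mem_cons.1 hx with hx | hx
        · rw [hx]
          change j.1 < j'.1
          omega
        · have := a1 x hx
          have h7 : j'.1 ≤ x.1 := this
          change j.1 < x.1
          omega
      refine ⟨fun x hx => (hlt x hx).le, [], (r :: ρ) :: bs, by simp, ?_, ?_, ?_, ?_, ?_, ?_, ?_⟩
      · rw [List.length_cons, a2]; omega
      · omega
      · rw [List.length_nil, List.count_eq_zero]
        intro hmem
        obtain ⟨x, hx, hx2⟩ := List.mem_map.1 hmem
        have h7 : j.1 < x.1 := hlt x hx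
        omega
      · intro t ht
        cases t with
        | zero =>
          rw [List.map_cons, List.count_cons]
          simp only [blk, Nat.add_zero, ← h3, a4]
          simp
        | succ t =>
          have h7 := a5 t (by simpa using ht)
          rw [List.map_cons, List.count_cons]
          have h8 : j.1 + 1 + (t + 1) = j'.1 + 1 + t := by omega
          have h9 : ¬ (j'.1 = j'.1 + 1 + t) := by omega
          simp only [blk, h8]
          rw [h7]
          simp [h9]
      · exact ⟨r, ρ, rfl, h6, a6⟩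
      · intro _ h; simp at h
      · intro _ _; rfl

theorem path_stay {j : Fin (n + 1)} (hj : j ≠ 0) (r1 : M.rules) (ρ : List M.rules) :
    Path (some (j, r1, true)) ρ (List.replicate ρ.length j) (some (j, r1, true)) := by
  induction ρ with
  | nil => exact ⟨rfl, rfl⟩
  | cons r ρ ih =>
    exact ⟨some (j, r1, true), _, Or.inr (Or.inl ⟨j, r1, true, true, rfl, rfl,
      fun h => (hj h).elim, by simp⟩), rfl, ih⟩

theorem path_heads {k : ℕ} (bs : List (List M.rules)) (j : ℕ) (hj : j + bs.length = n)
    (hk : ∀ b ∈ bs, b.length = k) (r1 : M.rules) (h : Heads M r1 bs) : ∃ rn ν,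
      Path (some ((⟨j, by omega⟩ : Fin (n + 1)), r1, true)) bs.flatten ν
        (some ((⟨n, by omega⟩ : Fin (n + 1)), rn, true)) ∧
      ν.map Fin.val = (List.range' (j + 1) bs.length).flatMap (List.replicate k) := by
  induction bs generalizing j r1 with
  | nil =>
    simp only [List.length_nil, Nat.add_zero] at hj
    subst hj
    exact ⟨r1, [], ⟨rfl, rfl⟩, rfl⟩
  | cons b bs ih =>
    obtain ⟨r, ρ, rfl, h1, h2⟩ := h
    simp only [List.length_cons] at hj
    obtain ⟨rn, ν, h3, h4⟩ := ih (j + 1) (by omega) (fun b hb => hk b (by simp [hb])) r h2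
    have hk1 := hk (r :: ρ) (by simp)
    simp only [List.length_cons] at hk1
    have hne : (⟨j + 1, by omega⟩ : Fin (n + 1)) ≠ 0 := by
      intro h
      have := congrArg Fin.val h
      simp at this
    refine ⟨rn, (⟨j + 1, by omega⟩ : Fin (n + 1)) ::
      (List.replicate ρ.length (⟨j + 1, by omega⟩ : Fin (n + 1)) ++ ν), ?_, ?_⟩
    · rw [List.flatten_cons, List.cons_append]
      refine ⟨some (⟨j + 1, by omega⟩, r, true), _, Or.inr (Or.inr ⟨⟨j, by omega⟩,
        ⟨j + 1, by omega⟩, r1, rfl, rfl, rfl, h1⟩), rfl, ?_⟩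
      exact path_append (path_stay hne r ρ) h3
    · rw [List.length_cons, List.range'_succ, List.flatMap_cons, ← h4, ← hk1]
      simp [List.replicate_succ]

theorem path_first {ρ : List M.rules} {r : M.rules} (h1 : r.1.tgt = M.qt)
    (h2 : ∀ r' ∈ ρ, r'.1.tgt ≠ M.qt) (r1 : M.rules) :
    Path (some ((0 : Fin (n + 1)), r1, false)) (ρ ++ [r]) (List.replicate (ρ ++ [r]).length 0)
      (some (0, r1, true)) := by
  induction ρ with
  | nil =>
    refine ⟨some (0, r1, true), [], Or.inr (Or.inl ⟨0, r1, false, true, rfl, rfl, fun _ => rfl,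
      by simp [h1]⟩), rfl, rfl, rfl⟩
  | cons r' ρ ih =>
    refine ⟨some (0, r1, false), _, Or.inr (Or.inl ⟨0, r1, false, false, rfl, rfl, fun _ => rfl,
      ?_⟩), rfl, ih fun r'' hr'' => h2 r'' (by simp [hr''])⟩
    simp [h2 r' (by simp)]

variable (M n) in
/-- the annotated automaton -/
abbrev lp : LP Λ n where
  Q := M.Q × SC M n
  Γ := M.Γ
  ι := {x : SC M n × M.rules × SC M n // strn M x.1 x.2.1 x.2.2}
  finQ := by
    have := M.finQ
    have := M.finR.to_subtype
    infer_instance
  finΓ := M.finΓ
  finι := by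
    have := M.finR.to_subtype
    infer_instance
  rule x := ⟨x.1.2.1.1.top, (x.1.2.1.1.src, x.1.1), x.1.2.1.1.inp, x.1.2.1.1.push,
    (x.1.2.1.1.tgt, x.1.2.2)⟩
  ann x := blk x.1.2.2
  q0 := (M.q0, none)
  Z0 := M.Z0
  F := {x | x.1 ∈ M.F ∧ ∃ rn, x.2 = some (Fin.last n, rn, true)}

theorem lp_proj {ξ : List (lp n M).ι} {α α' : List M.Γ} {q q' : M.Q} {s s' : SC M n}
    (h : Comp (ξ.map (lp n M).rule) α (q, s) α' (q', s')) :
    Comp ((ξ.map fun x => x.1.2.1).map Subtype.val) α q α' q' ∧
      Path s (ξ.map fun x => x.1.2.1) (ξ.map (lp n M).ann) s' ∧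
      input (ξ.map (lp n M).rule) = input ((ξ.map fun x => x.1.2.1).map Subtype.val) := by
  induction ξ generalizing α q s with
  | nil =>
    obtain ⟨rfl, h⟩ := h
    obtain ⟨rfl, rfl⟩ := Prod.mk.inj h
    exact ⟨⟨rfl, rfl⟩, ⟨rfl, rfl⟩, rfl⟩
  | cons x ξ ih =>
    obtain ⟨β, rfl, hq, h⟩ := h
    obtain ⟨⟨s1, r, s2⟩, hx⟩ := x
    obtain ⟨rfl, rfl⟩ := Prod.mk.inj hq
    obtain ⟨a1, a2, a3⟩ := ih h
    refine ⟨⟨β, rfl, rfl, a1⟩, ⟨s2, _, hx, rfl, a2⟩, ?_⟩
    simp only [List.map_cons, input_cons, a3]

theorem lp_lift {μ : List M.rules} {ν : List (Fin (n + 1))} {α α' : List M.Γ} {q q' : M.Q}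
    {s s' : SC M n} (h : Comp (μ.map Subtype.val) α q α' q') (h2 : Path s μ ν s') :
    ∃ ξ : List (lp n M).ι, ξ.map (lp n M).ann = ν ∧
      Comp (ξ.map (lp n M).rule) α (q, s) α' (q', s') ∧
      input (ξ.map (lp n M).rule) = input (μ.map Subtype.val) := by
  induction μ generalizing α q s ν with
  | nil =>
    obtain ⟨rfl, rfl⟩ := h
    obtain ⟨rfl, rfl⟩ := h2
    exact ⟨[], rfl, ⟨rfl, rfl⟩, rfl⟩
  | cons r μ ih =>
    obtain ⟨β, rfl, rfl, h⟩ := h
    obtain ⟨s1, ν', h3, rfl, h4⟩ := h2
    obtain ⟨ξ, a1, a2, a3⟩ := ih h h4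
    refine ⟨⟨(s, r, s1), h3⟩ :: ξ, by rw [List.map_cons, a1], ⟨β, rfl, rfl, a2⟩, ?_⟩
    simp only [List.map_cons, input_cons, a3]

theorem heads_chain {r1 : M.rules} {ρ : List M.rules} {bs : List (List M.rules)} :
    Heads M r1 bs ↔ (((r1 :: ρ) :: bs).map (List.map Subtype.val)).IsChain
      (fun b b' => ∃ r ρ r' ρ', b = r :: ρ ∧ b' = r' :: ρ' ∧ M.R r r') := by
  induction bs generalizing r1 ρ with
  | nil => simp [Heads]
  | cons b bs ih =>
    simp only [List.map_cons, List.isChain_cons_cons]
    constructor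
    · rintro ⟨r, ρ', rfl, h1, h2⟩
      exact ⟨⟨_, _, _, _, rfl, rfl, h1⟩, ih.1 h2⟩
    · rintro ⟨⟨r, ρ1, r', ρ', h1, h2, h3⟩, h4⟩
      cases b with
      | nil => simp at h2
      | cons r2 b =>
        simp only [List.map_cons, List.cons.injEq] at h1 h2
        refine ⟨r2, b, rfl, ?_, ih.2 h4⟩
        rw [h1.1, h2.1]
        exact h3

theorem pattern_val (n k : ℕ) :
    (pattern n k).map Fin.val = (List.range (n + 1)).flatMap (List.replicate k) := by
  unfold pattern
  rw [List.map_flatMap, ← List.map_coe_finRange_eq_range, List.flatMap_map]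
  congr 1
  funext j
  simp

/-- The annotated automaton accepts the same language. -/
theorem lp_lang : (lp n M).Lang = {w | M.Accepts n w} := by
  ext w
  constructor
  · rintro ⟨ξ, k, ⟨⟨f, s⟩, ⟨hf, rn, hs⟩, hc⟩, hann, rfl⟩
    simp only at hs
    subst hs
    obtain ⟨a1, a2, a3⟩ := lp_proj hc
    rw [a3]
    rw [hann] at a2
    generalize (ξ.map fun x => x.1.2.1) = μ at a1 a2 a3 ⊢
    cases μ with
    | nil =>
      obtain ⟨-, h⟩ := a2
      simp at h
    | cons r μ =>
      obtain ⟨s1, ν, h1, h2, h3⟩ := a2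
      rcases h1 with ⟨-, e', rfl, h4⟩ | ⟨j', r1', e1, e', h4, -⟩ | ⟨j1, j', r1', -, h4, -⟩
      · obtain ⟨b1, ρ, bs, rfl, b2, b3, b4, b5, b6, b7, b8⟩ := path_blocks h3
        have hν : ∀ x : Fin (n + 1), ((blk (some (0, r, e') : SC M n) :: ν).map Fin.val).count x.1 =
            k := by
          intro x
          rw [← h2]
          exact (List.count_map_of_injective _ _ Fin.val_injective x).trans (pattern_count n k x)
        have hk0 : 1 + ρ.length = k := by
          have := hν 0
          rw [List.map_cons, List.count_cons] at this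
          have b4' : (ν.map Fin.val).count 0 = ρ.length := b4
          simp only [blk, Fin.val_zero] at this
          rw [b4'] at this
          simp at this
          omega
        have hkt : ∀ t (ht : t < bs.length), (bs[t]).length = k := by
          intro t ht
          have h5 := hν ⟨0 + 1 + t, by
            have : (Fin.last n).1 = n := rfl
            have : ((0 : Fin (n + 1)) : ℕ) = 0 := rfl
            omega⟩
          have h6 := b5 t ht
          rw [List.map_cons, List.count_cons] at h5
          have h7 : ((0 : Fin (n + 1)) : ℕ) = 0 := rfl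
          rw [h7] at h6
          simp only [h6, blk, h7] at h5
          have h8 : ¬ (0 = 0 + 1 + t) := by omega
          simpa [h8] using h5
        refine ⟨k, ((r :: ρ) :: bs).map (List.map Subtype.val), by omega, ?_, ?_, ?_,
          ⟨f, hf, ?_⟩, ?_, ?_, heads_chain.1 b6⟩
        · have h7 : (Fin.last n).1 = n := rfl
          have h8 : ((0 : Fin (n + 1)) : ℕ) = 0 := rfl
          rw [List.length_map, List.length_cons, b2]
          omega
        · intro b hb
          obtain ⟨b', hb', rfl⟩ := List.mem_map.1 hb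
          rw [List.length_map]
          rcases List.mem_cons.1 hb' with rfl | hb'
          · rw [List.length_cons]; omega
          · obtain ⟨t, ht, rfl⟩ := List.mem_iff_getElem.1 hb'
            exact hkt t ht
        · intro r' hr'
          rw [← List.map_flatten] at hr'
          obtain ⟨x, -, rfl⟩ := List.mem_map.1 hr'
          exact x.2
        · rw [← List.map_flatten]
          exact a1
        · rw [← List.map_flatten]
          rfl
        · cases e' with
          | true =>
            have h5 := b8 rfl rfl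
            subst h5
            refine ⟨[], r.1, bs.map (List.map Subtype.val), rfl, h4.1 rfl, by simp⟩
          | false =>
            obtain ⟨ρ', r2, rfl, c1, c2⟩ := b7 rfl rfl
            refine ⟨r.1 :: ρ'.map Subtype.val, r2.1, bs.map (List.map Subtype.val), ?_, c1, ?_⟩
            · simp
            · intro r' hr'
              rcases List.mem_cons.1 hr' with rfl | hr'
              · intro h
                have := h4.2 h
                simp at this
              · obtain ⟨x, hx, rfl⟩ := List.mem_map.1 hr'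
                exact c2 x hx
      · simp at h4
      · simp at h4
  · rintro ⟨k, bs, hk, hlen, hbk, hR, ⟨f, hf, hc⟩, rfl, ⟨ρ, r, bs', hbs, hr, hρ⟩, hch⟩
    obtain ⟨cs, hcs⟩ := lift_lists M.rules bs hR
    cases cs with
    | nil =>
      rw [← hcs] at hbs
      simp at hbs
    | cons c cs =>
      have h1 : (c.map Subtype.val) = ρ ++ [r] := by
        rw [← hcs, List.map_cons] at hbs
        exact (List.cons.inj hbs).1
      obtain ⟨ρ1, c1, rfl, h2, h3⟩ := List.map_eq_append_iff.1 h1
      obtain ⟨r1, c2, rfl, h4, h5⟩ := List.map_eq_cons_iff.1 h3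
      have h6 : c2 = [] := List.map_eq_nil_iff.1 h5
      subst h6
      have hlen2 : cs.length = n := by
        have := congrArg List.length hcs
        rw [List.length_map, List.length_cons, hlen] at this
        omega
      have hkc : (ρ1 ++ [r1]).length = k := by
        rw [← List.length_map (f := Subtype.val)]
        apply hbk
        rw [← hcs]
        simp
      have hkcs : ∀ b ∈ cs, b.length = k := by
        intro b hb
        rw [← List.length_map (f := Subtype.val)]
        apply hbk
        rw [← hcs]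
        exact List.mem_map.2 ⟨b, by simp [hb], rfl⟩
      rw [← hcs] at hch
      have hρ1 : ∀ r' ∈ ρ1, r'.1.tgt ≠ M.qt := by
        intro r' hr'
        apply hρ
        rw [← h2]
        exact List.mem_map.2 ⟨r', hr', rfl⟩
      have hr1 : r1.1.tgt = M.qt := by rw [h4]; exact hr
      -- the first block
      obtain ⟨rf, hp0, hheads⟩ : ∃ rf, Path (none : SC M n) (ρ1 ++ [r1])
          (List.replicate k (0 : Fin (n + 1))) (some (0, rf, true)) ∧ Heads M rf cs := by
        cases ρ1 with
        | nil =>
          refine ⟨r1, ?_, heads_chain.2 hch⟩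
          simp only [List.nil_append, List.length_singleton] at hkc
          subst hkc
          exact ⟨some (0, r1, true), [], Or.inl ⟨rfl, true, rfl, by simp [hr1]⟩, rfl, rfl, rfl⟩
        | cons r2 ρ2 =>
          refine ⟨r2, ?_, heads_chain.2 hch⟩
          have h7 := path_first (n := n) hr1 (ρ := ρ2) (fun r' hr' => hρ1 r' (by simp [hr'])) r2
          rw [List.cons_append, List.length_cons] at hkc
          rw [← hkc, List.replicate_succ]
          refine ⟨some (0, r2, false), _, Or.inl ⟨rfl, false, rfl, ?_⟩, rfl, h7⟩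
          simp [hρ1 r2 (by simp)]
      obtain ⟨rn, ν, hp1, hν⟩ := path_heads (n := n) cs 0 (by omega) hkcs rf hheads
      have hp := path_append hp0 hp1
      have hflat : (bs.flatten) = ((ρ1 ++ [r1]) ++ cs.flatten).map Subtype.val := by
        rw [← hcs, ← List.map_flatten]
        rfl
      rw [hflat] at hc ⊢
      obtain ⟨ξ, d1, d2, d3⟩ := lp_lift hc hp
      refine ⟨ξ, k, ⟨(f, _), ⟨hf, rn, rfl⟩, d2⟩, ?_, d3⟩
      rw [d1]
      apply List.map_injective_iff.2 Fin.val_injective
      rw [pattern_val, List.map_append, hν, hlen2]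
      have : List.range (n + 1) = 0 :: List.range' 1 n := by
        rw [List.range_eq_range', List.range'_succ]
      rw [this, List.flatMap_cons]
      simp

end

end Q222.FS
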