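import Mathlib
import Pool.Agent.Q222.FS.Ext
import Pool.Agent.Q222.FS.Shape

/-!
# From annotated automata to self-regulating automata
-/

set_option autoImplicit false

namespace Q222.FS

variable {Λ : Type} {n : ℕ} (P : LP Λ n)

/-- states -/
abbrev SQ := (P.Q × Fin (n + 1)) ⊕ Fin (n + 2)

/-- pushdown symbols -/
abbrev SG := Option (P.Γ ⊕ P.Q)

/-- names of the rules -/
abbrev SK := Unit ⊕ (Fin (n + 1) × P.Q) ⊕ P.ι ⊕ (Fin (n + 1) × P.Q × Option P.Γ) ⊕
  {q // q ∈ P.F}

/-- the rules -/
def srule : SK P → Rule Λ (SQ P) (SG P)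
  | .inl _ => ⟨none, .inr 0, [], [some (.inl P.Z0), none], .inl (P.q0, 0)⟩
  | .inr (.inl (j, q)) => ⟨some (.inr q), .inr j.castSucc, [], [], .inl (q, j)⟩
  | .inr (.inr (.inl i)) => ⟨some (.inl (P.rule i).top), .inl ((P.rule i).src, P.ann i),
      (P.rule i).inp, (P.rule i).push.map fun Z => some (.inl Z),
      .inl ((P.rule i).tgt, P.ann i)⟩
  | .inr (.inr (.inr (.inl (j, q, X)))) => ⟨X.map .inl, .inl (q, j), [],
      [some (.inr q), X.map .inl], .inr j.succ⟩
  | .inr (.inr (.inr (.inr q))) => ⟨none, .inl (q.1, Fin.last n), [], [], .inr (Fin.last _)⟩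

/-- the self-regulating automaton -/
abbrev sp : SPDA Λ where
  Q := SQ P
  Γ := SG P
  finQ := by have := P.finQ; infer_instance
  finΓ := by have := P.finQ; have := P.finΓ; infer_instance
  rules := Set.range (srule P)
  finR := by
    have := P.finQ
    have := P.finι
    have := P.finΓ
    exact Set.finite_range _
  q0 := .inr 0
  qt := .inr 1
  Z0 := none
  F := {.inr (Fin.last _)}
  R r r' := ∃ j j' : Fin (n + 2), j'.1 = j.1 + 1 ∧ r.src = .inr j ∧ r'.src = .inr j'

variable {P}

theorem input_append {Λ Q Γ : Type} (μ ν : List (Rule Λ Q Γ)) :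
    input (μ ++ ν) = input μ ++ input ν := List.flatMap_append ..

/-- pushdown contents -/
def mapS (α : List P.Γ) : List (SG P) := α.map (fun Z => some (.inl Z)) ++ [none]

/-- level of a state -/
def lev : SQ P → ℕ
  | .inl x => 2 * x.2.1 + 1
  | .inr j => 2 * j.1

theorem lev_rule (x : SK P) : lev (srule P x).src ≤ lev (srule P x).tgt := by
  rcases x with x | ⟨j, q⟩ | i | ⟨j, q, X⟩ | q <;> simp [srule, lev]

theorem lev_rule' (x : SK P) (j : Fin (n + 2)) (h : (srule P x).src = .inr j) :
    lev (srule P x).src < lev (srule P x).tgt := by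
  rcases x with x | ⟨j, q⟩ | i | ⟨j, q, X⟩ | q <;> simp [srule, lev] at h ⊢

theorem lev_comp {ρ : List (Rule Λ (SQ P) (SG P))} (hρ : ∀ r ∈ ρ, r ∈ Set.range (srule P))
    {α β : List (SG P)} {s s' : SQ P} (h : Comp ρ α s β s') : lev s ≤ lev s' := by
  induction ρ generalizing α s with
  | nil =>
    obtain ⟨-, rfl⟩ := h
    exact le_rfl
  | cons r ρ ih =>
    obtain ⟨β', rfl, rfl, h⟩ := h
    obtain ⟨x, rfl⟩ := hρ r (by simp)
    exact (lev_rule x).trans (ih (fun r hr => hρ r (by simp [hr])) h)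

theorem comp_st {ρ : List (Rule Λ (SQ P) (SG P))} (hρ : ∀ r ∈ ρ, r ∈ Set.range (srule P))
    {α β : List (SG P)} {j : Fin (n + 2)} (h : Comp ρ α (.inr j) β (.inr j)) :
    ρ = [] := by
  cases ρ with
  | nil => rfl
  | cons r ρ =>
    exfalso
    obtain ⟨β', rfl, hs, h⟩ := h
    obtain ⟨x, rfl⟩ := hρ r (by simp)
    have h1 := lev_rule' x j hs.symm
    have h2 := lev_comp (fun r hr => hρ r (by simp [hr])) h
    rw [← hs] at h1
    omega

theorem mapS_cons {α : List P.Γ} {Z : P.Γ} {β : List (SG P)}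
    (h : mapS α = some (.inl Z) :: β) : ∃ α', α = Z :: α' ∧ β = mapS α' := by
  cases α with
  | nil => simp [mapS] at h
  | cons Y α =>
    simp only [mapS, List.map_cons, List.cons_append, List.cons.injEq, Option.some.injEq,
      Sum.inl.injEq] at h
    obtain ⟨rfl, rfl⟩ := h
    exact ⟨α, rfl, rfl⟩

theorem mapS_none {α : List P.Γ} {β : List (SG P)} (h : mapS α = none :: β) :
    α = [] ∧ β = [] := by
  cases α with
  | nil =>
    simp only [mapS, List.map_nil, List.nil_append, List.cons.injEq, true_and] at h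
    exact ⟨rfl, h.symm⟩
  | cons Y α => simp [mapS] at h

/-- a phase -/
theorem phase {ρ : List (Rule Λ (SQ P) (SG P))} (hρ : ∀ r ∈ ρ, r ∈ Set.range (srule P))
    {α : List P.Γ} {β : List (SG P)} {q : P.Q} {j : Fin (n + 1)}
    (h : Comp ρ (mapS α) (.inl (q, j)) β (.inr j.succ)) :
    ∃ (ξ : List P.ι) (α1 : List P.Γ) (q1 : P.Q), ρ.length = ξ.length + 1 ∧
      Comp (ξ.map P.rule) α q α1 q1 ∧ ξ.map P.ann = List.replicate ξ.length j ∧
      input ρ = input (ξ.map P.rule) ∧
      (β = some (.inr q1) :: mapS α1 ∨ (β = [] ∧ α1 = [] ∧ j = Fin.last n ∧ q1 ∈ P.F)) := by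
  induction ρ generalizing α q with
  | nil =>
    obtain ⟨-, h⟩ := h
    simp at h
  | cons r ρ ih =>
    obtain ⟨β', h1, h2, h3⟩ := h
    obtain ⟨x, rfl⟩ := hρ r (by simp)
    have hρ' : ∀ r ∈ ρ, r ∈ Set.range (srule P) := fun r hr => hρ r (by simp [hr])
    rcases x with x | ⟨j', q'⟩ | i | ⟨j', q', X⟩ | q'
    · simp [srule] at h2
    · simp [srule] at h2
    · simp only [srule, Sum.inl.injEq, Prod.mk.injEq] at h2
      obtain ⟨rfl, rfl⟩ := h2
      obtain ⟨α', rfl, rfl⟩ := mapS_cons h1
      have h4 : (P.rule i).push.map (fun Z => some (.inl Z)) ++ mapS α' =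
          mapS ((P.rule i).push ++ α') := by simp [mapS]
      change Comp ρ ((P.rule i).push.map (fun Z => some (.inl Z)) ++ mapS α')
        (.inl ((P.rule i).tgt, P.ann i)) _ _ at h3
      rw [h4] at h3
      obtain ⟨ξ, α1, q1, a1, a2, a3, a4, a5⟩ := ih hρ' h3
      refine ⟨i :: ξ, α1, q1, by simp [a1], ⟨α', rfl, rfl, a2⟩, ?_, ?_, a5⟩
      · rw [List.map_cons, a3]; rfl
      · rw [input_cons, a4]; rfl
    · simp only [srule, Sum.inl.injEq, Prod.mk.injEq] at h2
      obtain ⟨rfl, rfl⟩ := h2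
      have h4 := comp_st hρ' h3
      subst h4
      obtain ⟨h5, -⟩ := h3
      refine ⟨[], α, q, rfl, ⟨rfl, rfl⟩, rfl, rfl, Or.inl ?_⟩
      rw [← h5, h1]
      rfl
    · simp only [srule, Sum.inl.injEq, Prod.mk.injEq] at h2
      obtain ⟨rfl, rfl⟩ := h2
      obtain ⟨rfl, rfl⟩ := mapS_none h1
      have h4 := comp_nil_stack h3
      subst h4
      obtain ⟨h5, -⟩ := h3
      exact ⟨[], [], q'.1, rfl, ⟨rfl, rfl⟩, rfl, rfl, Or.inr ⟨h5.symm, rfl, rfl, q'.2⟩⟩

/-- the heads of the blocks have the right sources -/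
def HN (P : LP Λ n) : ℕ → List (List (Rule Λ (SQ P) (SG P))) → Prop
  | _, [] => True
  | j, b :: bs => ∃ r ρ, b = r :: ρ ∧ (∃ h, r.src = .inr ⟨j + 1, h⟩) ∧ HN P (j + 1) bs

theorem back_sound (d K : ℕ) (j : Fin (n + 1)) (hd : n - j.1 = d)
    {ρ : List (Rule Λ (SQ P) (SG P))} {bs : List (List (Rule Λ (SQ P) (SG P)))}
    (hρ : ∀ r ∈ ρ ++ bs.flatten, r ∈ Set.range (srule P)) {α : List P.Γ} {q : P.Q}
    (h : Comp (ρ ++ bs.flatten) (mapS α) (.inl (q, j)) [] (.inr (Fin.last _)))
    (hK : ρ.length = K) (hbs : ∀ b ∈ bs, b.length = K + 1) (hHN : HN P j.1 bs)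
    (hlen : bs.length = d) : ∃ (ξ : List P.ι) (f : P.Q), f ∈ P.F ∧
      Comp (ξ.map P.rule) α q [] f ∧
      (ξ.map P.ann).map Fin.val = (List.range' j.1 (d + 1)).flatMap (List.replicate (K - 1)) ∧
      input (ρ ++ bs.flatten) = input (ξ.map P.rule) := by
  induction d generalizing j ρ bs α q with
  | zero =>
    have hb : bs = [] := List.length_eq_zero_iff.1 hlen
    subst hb
    simp only [List.flatten_nil, List.append_nil] at hρ h ⊢
    have hj : j = Fin.last n := by
      apply Fin.ext
      have := j.2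
      simp only [Fin.val_last]
      omega
    subst hj
    obtain ⟨ξ, α1, q1, a1, a2, a3, a4, a5⟩ := phase hρ h
    rcases a5 with a5 | ⟨-, rfl, -, hq⟩
    · simp at a5
    · refine ⟨ξ, q1, hq, a2, ?_, a4⟩
      have : ξ.length = K - 1 := by omega
      rw [a3, this]
      simp
  | succ d ih =>
    cases bs with
    | nil => simp at hlen
    | cons b bs =>
      obtain ⟨r, ρ', rfl, ⟨hh, hr⟩, h2⟩ := hHN
      have hj : j.1 + 1 < n + 1 := by omega
      obtain ⟨β, s, h3, h4⟩ := comp_append.1 h
      rw [List.flatten_cons, List.cons_append] at h4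
      obtain ⟨β', rfl, rfl, h5⟩ := h4
      have hs : r.src = .inr j.succ := by
        rw [hr]
        rfl
      rw [hs] at h3
      obtain ⟨ξ, α1, q1, a1, a2, a3, a4, a5⟩ := phase (fun r hr => hρ r (by simp [hr])) h3
      have a5 : r.top = some (.inr q1) ∧ β' = mapS α1 := by
        rcases a5 with a5 | ⟨a5, -⟩
        · exact List.cons.inj a5
        · simp at a5
      obtain ⟨hc, rfl⟩ := a5
      obtain ⟨x, rfl⟩ := hρ r (by simp)
      rcases x with x | ⟨j', q'⟩ | i | ⟨j', q', X⟩ | q'
      · simp [srule] at hc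
      · simp only [srule, Option.some.injEq, Sum.inr.injEq] at hc hs
        subst hc
        have hj' : j'.1 = j.1 + 1 := congrArg Fin.val hs
        have hlen' : bs.length = d := by simpa using hlen
        have h6 : Comp (ρ' ++ bs.flatten) (mapS α1) (.inl (q', j')) [] (.inr (Fin.last _)) := h5
        obtain ⟨ξ', f, b1, b2, b3, b4⟩ := ih j' (by omega) (ρ := ρ') (bs := bs)
          (fun r hr => hρ r (by
            rw [List.flatten_cons]
            simp only [List.mem_append, List.mem_cons] at hr ⊢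
            tauto)) h6
          (by have := hbs _ (List.mem_cons_self); simpa using this)
          (fun b hb => hbs b (by simp [hb])) (by rw [hj']; exact h2) hlen'
        refine ⟨ξ ++ ξ', f, b1, ?_, ?_, ?_⟩
        · rw [List.map_append, comp_append]
          exact ⟨_, _, a2, b2⟩
        · have e : List.range' j.1 (d + 1 + 1) = j.1 :: List.range' (j.1 + 1) (d + 1) :=
            List.range'_succ ..
          rw [List.map_append, List.map_append, b3, a3, hj', e, List.flatMap_cons]
          have : ξ.length = K - 1 := by omega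
          rw [this]
          simp
        · rw [List.flatten_cons, List.map_append, input_append, input_append,
            input_append (ξ.map P.rule), a4, ← b4, input_append, input_cons]
          rfl
      · simp [srule] at hc
      · simp [srule] at hs
      · simp [srule] at hc

theorem hn_of_chain {bs : List (List (Rule Λ (SQ P) (SG P)))} {r : Rule Λ (SQ P) (SG P)}
    {ρ : List (Rule Λ (SQ P) (SG P))} {j : Fin (n + 2)} (hr : r.src = .inr j)
    (h : ((r :: ρ) :: bs).IsChain
      fun b b' => ∃ r ρ r' ρ', b = r :: ρ ∧ b' = r' :: ρ' ∧ (sp P).R r r') : HN P j.1 bs := by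
  induction bs generalizing r ρ j with
  | nil => trivial
  | cons b bs ih =>
    rw [List.isChain_cons_cons] at h
    obtain ⟨⟨r1, ρ1, r2, ρ2, h1, rfl, j1, j2, h3, h4, h5⟩, h6⟩ := h
    obtain ⟨rfl, rfl⟩ := List.cons.inj h1
    rw [hr] at h4
    obtain rfl := Sum.inr.inj h4
    refine ⟨r2, ρ2, rfl, ⟨by have := j2.2; omega, ?_⟩, ?_⟩
    · rw [h5]
      congr 1
      exact Fin.ext h3
    · have := ih h5 h6
      rwa [h3] at this

theorem chain_of_hn {bs : List (List (Rule Λ (SQ P) (SG P)))} {r : Rule Λ (SQ P) (SG P)}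
    {ρ : List (Rule Λ (SQ P) (SG P))} {j : Fin (n + 2)} (hr : r.src = .inr j)
    (h : HN P j.1 bs) : ((r :: ρ) :: bs).IsChain
      fun b b' => ∃ r ρ r' ρ', b = r :: ρ ∧ b' = r' :: ρ' ∧ (sp P).R r r' := by
  induction bs generalizing r ρ j with
  | nil => simp
  | cons b bs ih =>
    obtain ⟨r2, ρ2, rfl, ⟨hh, h1⟩, h2⟩ := h
    rw [List.isChain_cons_cons]
    exact ⟨⟨r, ρ, r2, ρ2, rfl, rfl, j, _, rfl, hr, h1⟩, ih h1 h2⟩

/-- simulation -/
theorem back_sim {ξ : List P.ι} {j : Fin (n + 1)} (hj : ∀ x ∈ ξ.map P.ann, x = j)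
    {α α1 : List P.Γ} {q q1 : P.Q} (h : Comp (ξ.map P.rule) α q α1 q1) :
    Comp (ξ.map fun i => srule P (.inr (.inr (.inl i)))) (mapS α) (.inl (q, j)) (mapS α1)
      (.inl (q1, j)) ∧ input (ξ.map fun i => srule P (.inr (.inr (.inl i)))) =
        input (ξ.map P.rule) := by
  induction ξ generalizing α q with
  | nil =>
    obtain ⟨rfl, rfl⟩ := h
    exact ⟨⟨rfl, rfl⟩, rfl⟩
  | cons i ξ ih =>
    obtain ⟨β, rfl, rfl, h⟩ := h
    obtain ⟨a1, a2⟩ := ih (fun x hx => hj x (by simp only [List.map_cons, List.mem_cons]; tauto)) h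
    have hi : P.ann i = j := hj _ (by simp)
    constructor
    · refine ⟨mapS β, rfl, ?_, ?_⟩
      · rw [← hi]; rfl
      · have h4 : (P.rule i).push.map (fun Z => some (.inl Z)) ++ mapS β =
            mapS ((P.rule i).push ++ β) := by simp [mapS]
        change Comp (ξ.map fun i => srule P (.inr (.inr (.inl i))))
          ((P.rule i).push.map (fun Z => some (.inl Z)) ++ mapS β)
          (.inl ((P.rule i).tgt, P.ann i)) _ _
        rw [h4, hi]
        exact a1
    · rw [List.map_cons, input_cons, a2, List.map_cons, input_cons]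
      rfl

theorem back_complete (d k : ℕ) (j : Fin (n + 1)) (hd : n - j.1 = d) {ξ : List P.ι}
    {α : List P.Γ} {q f : P.Q} (hf : f ∈ P.F) (h : Comp (ξ.map P.rule) α q [] f)
    (hann : (ξ.map P.ann).map Fin.val = (List.range' j.1 (d + 1)).flatMap (List.replicate k)) :
    ∃ (ρ : List (Rule Λ (SQ P) (SG P))) (e : Rule Λ (SQ P) (SG P))
      (bs : List (List (Rule Λ (SQ P) (SG P)))),
      (∀ r ∈ (ρ ++ [e]) ++ bs.flatten, r ∈ Set.range (srule P)) ∧
      Comp ((ρ ++ [e]) ++ bs.flatten) (mapS α) (.inl (q, j)) [] (.inr (Fin.last _)) ∧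
      ρ.length = k ∧ (∀ b ∈ bs, b.length = k + 2) ∧ HN P j.1 bs ∧ bs.length = d ∧
      input ((ρ ++ [e]) ++ bs.flatten) = input (ξ.map P.rule) ∧ e.tgt = .inr j.succ ∧
      ∀ r ∈ ρ, ∀ t, r.tgt ≠ .inr t := by
  induction d generalizing j ξ α q with
  | zero =>
    have hj : j = Fin.last n := by
      apply Fin.ext
      have := j.2
      simp only [Fin.val_last]
      omega
    subst hj
    have hann' : (ξ.map P.ann).map Fin.val = List.replicate k (Fin.last n).1 := by
      rw [hann]; simp
    have h1 : ∀ x ∈ ξ.map P.ann, x = Fin.last n := by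
      intro x hx
      apply Fin.ext
      have h2 : x.1 ∈ (ξ.map P.ann).map Fin.val := List.mem_map.2 ⟨x, hx, rfl⟩
      rw [hann'] at h2
      exact List.eq_of_mem_replicate h2
    obtain ⟨a1, a2⟩ := back_sim h1 h
    refine ⟨ξ.map fun i => srule P (.inr (.inr (.inl i))), srule P (.inr (.inr (.inr (.inr
      ⟨f, hf⟩)))), [], ?_, ?_, ?_, by simp, trivial, rfl, ?_, rfl, ?_⟩
    · intro r hr
      simp only [List.flatten_nil, List.append_nil, List.mem_append, List.mem_map,
        List.mem_singleton] at hr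
      rcases hr with ⟨i, -, rfl⟩ | rfl
      · exact ⟨_, rfl⟩
      · exact ⟨_, rfl⟩
    · rw [List.flatten_nil, List.append_nil, comp_append]
      exact ⟨_, _, a1, [], rfl, rfl, rfl, rfl⟩
    · have := congrArg List.length hann'
      simpa using this
    · rw [List.flatten_nil, List.append_nil, ← a2]
      simp [input, srule, List.flatMap_append]
    · intro r hr t
      obtain ⟨i, -, rfl⟩ := List.mem_map.1 hr
      simp [srule]
  | succ d ih =>
    have hj : j.1 + 1 < n + 1 := by omega
    rw [List.range'_succ, List.flatMap_cons, List.map_map] at hann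
    obtain ⟨ξ1, ξ2, rfl, h1, h2⟩ := List.map_eq_append_iff.1 hann
    rw [List.map_append, comp_append] at h
    obtain ⟨α1, q1, h3, h4⟩ := h
    have h5 : ∀ x ∈ ξ1.map P.ann, x = j := by
      intro x hx
      obtain ⟨i, hi, rfl⟩ := List.mem_map.1 hx
      apply Fin.ext
      have h2 : (P.ann i).1 ∈ ξ1.map (Fin.val ∘ P.ann) := List.mem_map.2 ⟨i, hi, rfl⟩
      rw [h1] at h2
      exact List.eq_of_mem_replicate h2
    obtain ⟨a1, a2⟩ := back_sim h5 h3
    rw [← List.map_map] at h2
    obtain ⟨ρ, e, bs, b1, b2, b3, b4, b5, b6, b7, b8, b9⟩ := ih ⟨j.1 + 1, hj⟩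
      (by simp only; omega) h4 h2
    obtain ⟨X, β, hX⟩ : ∃ (X : Option P.Γ) (β : List (SG P)), mapS α1 = X.map Sum.inl :: β := by
      cases α1 with
      | nil => exact ⟨none, [], rfl⟩
      | cons Z α1 => exact ⟨some Z, mapS α1, rfl⟩
    refine ⟨ξ1.map fun i => srule P (.inr (.inr (.inl i))),
      srule P (.inr (.inr (.inr (.inl (j, q1, X))))),
      (srule P (.inr (.inl (⟨j.1 + 1, hj⟩, q1))) :: (ρ ++ [e])) :: bs, ?_, ?_, ?_, ?_, ?_, ?_,
      ?_, rfl, ?_⟩
    · intro r hr
      rw [List.flatten_cons] at hr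
      simp only [List.mem_append, List.mem_cons, List.mem_map, List.not_mem_nil, or_false] at hr
      rcases hr with (⟨i, -, rfl⟩ | rfl) | (rfl | hr) | hr
      · exact ⟨_, rfl⟩
      · exact ⟨_, rfl⟩
      · exact ⟨_, rfl⟩
      · exact b1 r (by simp only [List.mem_append, List.mem_cons]; tauto)
      · exact b1 r (by simp only [List.mem_append, List.mem_cons]; tauto)
    · rw [comp_append]
      refine ⟨_, _, comp_append.2 ⟨_, _, a1, β, hX, rfl, rfl, rfl⟩, ?_⟩
      rw [List.flatten_cons, List.cons_append]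
      refine ⟨mapS α1, ?_, rfl, b2⟩
      rw [hX]
      rfl
    · have := congrArg List.length h1
      simpa using this
    · intro b hb
      rcases List.mem_cons.1 hb with rfl | hb
      · simp [b3]
      · exact b4 b hb
    · exact ⟨_, _, rfl, ⟨by omega, rfl⟩, b5⟩
    · rw [List.length_cons, b6]
    · rw [List.flatten_cons, List.cons_append]
      rw [List.map_append, input_append (ξ1.map P.rule), ← b7, ← a2, input_append, input_append,
        input_cons, input_cons, List.append_assoc]
      rfl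
    · intro r hr t
      obtain ⟨i, -, rfl⟩ := List.mem_map.1 hr
      simp [srule]

/-- The two languages agree. -/
theorem sp_lang : {w | (sp P).Accepts n w} = P.Lang := by
  ext w
  constructor
  · rintro ⟨k, bs, hk, hlen, hbk, hR, ⟨f, hf, hc⟩, rfl, -, hch⟩
    have hf : f = .inr (Fin.last _) := hf
    subst hf
    cases bs with
    | nil => simp at hlen
    | cons b bs =>
      have hb := hbk b (by simp)
      cases b with
      | nil => simp at hb; omega
      | cons r ρ =>
        rw [List.flatten_cons, List.cons_append] at hc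
        obtain ⟨β, h1, h2, h3⟩ := hc
        obtain ⟨x, rfl⟩ := hR r (by simp)
        have hβ : none = (srule P x).top ∧ β = [] := by
          obtain ⟨h1, h2⟩ := List.cons.inj h1
          exact ⟨h1, h2.symm⟩
        obtain ⟨hx, rfl⟩ := hβ
        rcases x with x | ⟨j', q'⟩ | i | ⟨j', q', X⟩ | q'
        · have h4 : Comp (ρ ++ bs.flatten) (mapS [P.Z0]) (.inl (P.q0, 0)) []
              (.inr (Fin.last _)) := h3
          have h5 := hn_of_chain (j := 0) rfl hch
          obtain ⟨ξ, f, b1, b2, b3, b4⟩ := back_sound n (k - 1) 0 rfl (ρ := ρ) (bs := bs)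
            (fun r hr => hR r (by
              rw [List.flatten_cons]
              simp only [List.mem_append, List.mem_cons] at hr ⊢
              tauto)) h4 (by simp at hb; omega)
            (fun b hb => by have := hbk b (by simp [hb]); omega) h5
            (by simpa using hlen)
          refine ⟨ξ, k - 1 - 1, ⟨f, b1, b2⟩, ?_, ?_⟩
          · apply List.map_injective_iff.2 Fin.val_injective
            rw [pattern_val, b3, List.range_eq_range']
            rfl
          · rw [← b4]
            rfl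
        · simp [srule] at hx
        · simp [srule] at hx
        · simp [srule] at h2
        · simp [srule] at h2
  · rintro ⟨ξ, k, ⟨f, hf, hc⟩, hann, rfl⟩
    have hann2 : (ξ.map P.ann).map Fin.val =
        (List.range' (0 : Fin (n + 1)).1 (n + 1)).flatMap (List.replicate k) := by
      rw [hann, pattern_val, List.range_eq_range']
      rfl
    obtain ⟨ρ, e, bs, b1, b2, b3, b4, b5, b6, b7, b8, b9⟩ := back_complete n k 0 rfl hf hc hann2
    have hflat : ((srule P (.inl ()) :: (ρ ++ [e])) :: bs).flatten =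
        srule P (.inl ()) :: ((ρ ++ [e]) ++ bs.flatten) := rfl
    refine ⟨k + 2, (srule P (.inl ()) :: (ρ ++ [e])) :: bs, by omega, by simp [b6], ?_, ?_,
      ⟨.inr (Fin.last _), rfl, ?_⟩, ?_, ?_, ?_⟩
    · intro b hb
      rcases List.mem_cons.1 hb with rfl | hb
      · simp [b3]
      · exact b4 b hb
    · intro r hr
      rw [hflat] at hr
      rcases List.mem_cons.1 hr with rfl | hr
      · exact ⟨_, rfl⟩
      · exact b1 r hr
    · rw [hflat]
      exact ⟨[], rfl, rfl, b2⟩
    · rw [hflat, input_cons, b7]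
      rfl
    · refine ⟨srule P (.inl ()) :: ρ, e, bs, rfl, b8, ?_⟩
      intro r hr
      rcases List.mem_cons.1 hr with rfl | hr
      · simp [srule]
      · exact b9 r hr _
    · exact chain_of_hn (j := 0) rfl b5

end Q222.FS
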